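import Mathlib
import Pool.Agent.R351.SlpTup

/-!
# Cubes and computations with few additions, with universal exponential parameters
-/

set_option autoImplicit false

namespace Pool.Agent.Zk44.GE

open Module Finset Pool.Agent.R351
open Pool.Agent.Y918.SC (Ex monE)
open Pool.Agent.W245 (IndepOver)

section Space

variable {κ C : Type} [Field κ] [Field C] [Algebra κ C] {h g : ℕ}

/-- The numbers `u o` are not zero and their logarithmic derivatives are constants. -/
def ExpLike (Δ : Derivation κ C C) (u : Fin h → C) : Prop :=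
  ∀ o, u o ≠ 0 ∧ ∃ a : κ, Δ (u o) = algebraMap κ C a * u o

theorem dit_const (Δ : Derivation κ C C) (c : ℕ) (a : κ) :
    ∃ a' : κ, dit Δ c (algebraMap κ C a) = algebraMap κ C a' := by
  induction c with
  | zero => exact ⟨a, rfl⟩
  | succ c ih =>
    obtain ⟨a', ha'⟩ := ih
    exact ⟨0, by rw [dit_succ, ha', Derivation.map_algebraMap, map_zero]⟩

theorem th_castAdd (u : Fin h → C) (t : Fin g → C) (hu : ∀ o, u o ≠ 0) (o : Fin h) :
    th (Fin.append u t) (Fin.castAdd g o) = u o := by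
  unfold th
  rw [Fin.append_left, if_neg (hu o)]

theorem th_natAdd (u : Fin h → C) (t : Fin g → C) (o : Fin g) :
    th (Fin.append u t) (Fin.natAdd h o) = th t o := by
  unfold th
  rw [Fin.append_right]

theorem Sθ_append_le (Δ : Derivation κ C C) (u : Fin h → C) (hu : ExpLike Δ u) (t : Fin g → C)
    (K' n : ℕ) :
    Sθ κ (lt Δ (th (Fin.append u t))) K' n ≤ Sθ κ (lt Δ (th t)) K' n := by
  classical
  refine Submodule.span_le.2 ?_
  rintro _ ⟨e, rfl⟩
  simp only [SetLike.mem_coe]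
  rw [Fintype.prod_prod_type, Fin.prod_univ_add]
  have h1 : ∃ a : κ, ∏ o : Fin h, ∏ c : Fin K', lt Δ (th (Fin.append u t))
      (Fin.castAdd g o, (c : ℕ)) ^ ((e (Fin.castAdd g o, c) : Fin (n + 1)) : ℕ) =
        algebraMap κ C a := by
    have h2 : ∀ (o : Fin h) (c : Fin K'), ∃ a : κ, lt Δ (th (Fin.append u t))
        (Fin.castAdd g o, (c : ℕ)) = algebraMap κ C a := by
      intro o c
      obtain ⟨h3, a, ha⟩ := hu o
      unfold lt
      simp only
      rw [th_castAdd u t (fun o => (hu o).1)]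
      have h4 : (u o)⁻¹ * Δ (u o) = algebraMap κ C a := by
        rw [ha]; field_simp
      rw [h4]
      exact dit_const Δ c a
    choose A hA using h2
    refine ⟨∏ o : Fin h, ∏ c : Fin K', A o c ^ ((e (Fin.castAdd g o, c) : Fin (n + 1)) : ℕ), ?_⟩
    rw [map_prod]
    refine Finset.prod_congr rfl fun o _ => ?_
    rw [map_prod]
    refine Finset.prod_congr rfl fun c _ => ?_
    rw [map_pow, hA]
  obtain ⟨a, ha⟩ := h1
  rw [ha, ← Algebra.smul_def]
  refine Submodule.smul_mem _ _ ?_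
  have h5 : ∏ o : Fin g, ∏ c : Fin K', lt Δ (th (Fin.append u t))
      (Fin.natAdd h o, (c : ℕ)) ^ ((e (Fin.natAdd h o, c) : Fin (n + 1)) : ℕ) =
      ∏ w : Fin g × Fin K', lt Δ (th t) (w.1, (w.2 : ℕ)) ^
        ((e (Fin.natAdd h w.1, w.2) : Fin (n + 1)) : ℕ) := by
    rw [Fintype.prod_prod_type]
    refine Finset.prod_congr rfl fun o _ => Finset.prod_congr rfl fun c _ => ?_
    unfold lt
    simp only
    rw [th_natAdd]
  rw [h5]
  exact Sθ_gen (lt Δ (th t)) K' n (fun w => ((e (Fin.natAdd h w.1, w.2) : Fin (n + 1)) : ℕ))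
    (fun w => Nat.lt_succ_iff.1 (e (Fin.natAdd h w.1, w.2)).2)

end Space

/-- **A cube of bounded dimension contains a point which is good for all exponentials.** -/
theorem cube_goodU (h g L : ℕ) : ∃ R : ℕ, ∀ (κ C : Type) [Field κ] [IsAlgClosed κ] [CharZero κ]
    [Field C] [CharZero C] [Algebra κ C] (Δ : Derivation κ C C),
    (∀ z, Δ z = 0 → ∃ a : κ, algebraMap κ C a = z) → ∀ (t : Fin g → C) (y₀ : C) (w : Fin R → C),
    LinearIndependent κ w → ∃ S : Finset (Fin R), ∀ u : Fin h → C, ExpLike Δ u →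
      Good1 κ (Fin.append u t) L (y₀ + ∑ i ∈ S, w i) := by
  classical
  choose K₀ hK₀ using fun l : ℕ => slp_one (h + g) l
  set K : ℕ := ∑ l ∈ range L, K₀ l + 1 with hK
  have hKl : ∀ l < L, K₀ l ≤ K := fun l hl => by
    have := Finset.single_le_sum (f := K₀) (fun _ _ => Nat.zero_le _) (Finset.mem_range.2 hl)
    omega
  choose N₀ hN₀ using fun l : ℕ => fun hl : l < L => hK₀ l K (hKl l hl)
  set N : ℕ := ∑ l : Fin L, N₀ l l.2 + 1 with hN
  have hNl : ∀ l (hl : l < L), N₀ l hl ≤ N := fun l hl => by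
    have := Finset.single_le_sum (f := fun l : Fin L => N₀ l l.2) (fun _ _ => Nat.zero_le _)
      (Finset.mem_univ (⟨l, hl⟩ : Fin L))
    simp only at this
    omega
  choose K' N' hKN using fun l : ℕ => fun hl : l < L => hN₀ l hl N (hNl l hl)
  -- one space for every length
  obtain ⟨M, hM⟩ : ∃ M : ℕ, M = ∑ l : Fin L, (N' l l.2 + 1) ^ (g * K' l l.2) + 1 := ⟨_, rfl⟩
  obtain ⟨R, hR⟩ := cube_jet M K N
  refine ⟨R, fun κ C _ _ _ _ _ _ Δ hΔ t y₀ w hw => ?_⟩
  set W : Submodule κ C := ((univ : Finset (Fin L)).sup fun l =>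
    Sθ κ (lt Δ (th t)) (K' l l.2) (N' l l.2)) ⊔ Submodule.span κ {1} with hW
  have hfin : ∀ l : Fin L, Module.Finite κ (Sθ κ (lt Δ (th t)) (K' l l.2) (N' l l.2)) :=
    fun l => (Sθ_finite _ _ _).1
  have hWfin : Module.Finite κ W := by infer_instance
  have hWrank : finrank κ W ≤ M := by
    have h1 : finrank κ ((univ : Finset (Fin L)).sup (fun l =>
        Sθ κ (lt Δ (th t)) (K' l l.2) (N' l l.2)) : Submodule κ C) ≤
        ∑ l : Fin L, (N' l l.2 + 1) ^ (g * K' l l.2) := by
      refine (finrank_sup_le _ _ hfin).trans ?_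
      exact Finset.sum_le_sum fun l _ => (Sθ_finite _ _ _).2
    have h2 : finrank κ (Submodule.span κ {(1 : C)}) ≤ 1 := by
      refine (finrank_span_le_card _).trans ?_
      simp
    rw [hW, hM]
    exact (Submodule.finrank_add_le_finrank_add_finrank _ _).trans (Nat.add_le_add h1 h2)
  obtain ⟨S, hS⟩ := hR κ C Δ hΔ W hWfin hWrank y₀ w hw
  refine ⟨S, fun u hu => ?_⟩
  set y := y₀ + ∑ i ∈ S, w i with hy
  -- `y` is not zero
  have hy0 : y ≠ 0 := by
    intro h0
    have hN1 : 1 < N + 1 := by omega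
    have hK1 : 0 < K := by omega
    let e₁ : Ex (Fin K) Empty N := Sum.elim (fun i => if (i : ℕ) = 0 then ⟨1, hN1⟩ else 0)
      (fun l => l.elim)
    have h1 := hS (fun e => if e = e₁ then 1 else 0) (by
      intro e
      split_ifs
      · exact Submodule.mem_sup_right (Submodule.mem_span_singleton_self _)
      · exact Submodule.zero_mem _) (by
      rw [Finset.sum_eq_single e₁]
      · rw [if_pos rfl, one_mul]
        unfold monE
        have h2 : ∏ a : Fin K, dit Δ a y ^ (e₁ (Sum.inl a) : ℕ) = 0 := by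
          refine Finset.prod_eq_zero (Finset.mem_univ ⟨0, hK1⟩) ?_
          simp [e₁, h0, dit_zero]
        rw [h2, zero_mul]
      · intro e _ he
        rw [if_neg he, zero_mul]
      · intro h; exact absurd (Finset.mem_univ _) h) e₁
    rw [if_pos rfl] at h1
    exact one_ne_zero h1
  intro G hG l hl hGl
  by_contra hGl0
  -- the first bad index
  have hex : ∃ l, l < L ∧ (G l).eval y = 0 ∧ G l ≠ 0 := ⟨l, hl, hGl, hGl0⟩
  set l₀ := Nat.find hex with hl₀
  obtain ⟨h1, h2, h3⟩ := Nat.find_spec hex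
  have hmin : ∀ l' < l₀, (G l').eval y = 0 → G l' = 0 := by
    intro l' hl' h4
    by_contra h5
    exact Nat.find_min hex hl' ⟨by omega, h4, h5⟩
  have hcmp : Cmp κ (bt1 (Fin.append u t)) (l₀ + 1) G := by
    obtain ⟨c, e, v, hh⟩ := hG
    exact ⟨c, e, v, fun l' hl' => hh l' (by omega)⟩
  obtain ⟨π, hπt, hπy, hπG⟩ := normalise (Fin.append u t) y hy0 l₀ G hcmp hmin h3
  refine hKN l₀ h1 κ C Δ π (by rw [hπG]; exact h3) (by rw [hπG, hπy]; exact h2) ?_
  rw [hπt, hπy]
  intro c hc hc0 e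
  refine hS c (fun e => ?_) hc0 e
  exact Submodule.mem_sup_left (Finset.le_sup (f := fun l : Fin L =>
    Sθ κ (lt Δ (th t)) (K' l l.2) (N' l l.2)) (Finset.mem_univ (⟨l₀, h1⟩ : Fin L))
      (Sθ_append_le Δ u hu t _ _ (hc e)))

end Pool.Agent.Zk44.GE
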