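import Mathlib
import Pool.Agent.R351.Wron

/-!
# Differential polynomials in one variable over a differential field
-/

set_option autoImplicit false

namespace Pool.Agent.Zk44.GE.Ode

open MvPolynomial
open Pool.Agent.R351

section Ring

variable {κ C : Type*} [Field κ] [Field C] [Algebra κ C]

/-- the derivation on the coefficients -/
noncomputable def cd (Δ : Derivation κ C C) (p : MvPolynomial ℕ C) : MvPolynomial ℕ C :=
  ∑ m ∈ p.support, monomial m (Δ (p.coeff m))

theorem coeff_cd (Δ : Derivation κ C C) (p : MvPolynomial ℕ C) (m : ℕ →₀ ℕ) :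
    (cd Δ p).coeff m = Δ (p.coeff m) := by
  classical
  unfold cd
  rw [coeff_sum]
  simp only [coeff_monomial]
  rw [Finset.sum_ite_eq']
  split_ifs with h
  · rfl
  · rw [notMem_support_iff.1 h, map_zero]

theorem cd_add (Δ : Derivation κ C C) (p q : MvPolynomial ℕ C) :
    cd Δ (p + q) = cd Δ p + cd Δ q := by
  ext m
  rw [coeff_add, coeff_cd, coeff_cd, coeff_cd, coeff_add, map_add]

theorem cd_C (Δ : Derivation κ C C) (a : C) : cd Δ (MvPolynomial.C a) = MvPolynomial.C (Δ a) := by
  classical
  ext m
  rw [coeff_cd, coeff_C, coeff_C]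
  split_ifs
  · rfl
  · rw [map_zero]

theorem cd_mul_X (Δ : Derivation κ C C) (p : MvPolynomial ℕ C) (i : ℕ) :
    cd Δ (p * X i) = cd Δ p * X i := by
  classical
  ext m
  rw [coeff_cd, coeff_mul_X', coeff_mul_X']
  split_ifs
  · rw [coeff_cd]
  · rw [map_zero]

theorem cd_support (Δ : Derivation κ C C) (p : MvPolynomial ℕ C) :
    (cd Δ p).support ⊆ p.support := by
  intro m hm
  rw [mem_support_iff, coeff_cd] at hm
  rw [mem_support_iff]
  intro h
  rw [h, map_zero] at hm
  exact hm rfl

theorem cd_totalDegree (Δ : Derivation κ C C) (p : MvPolynomial ℕ C) :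
    (cd Δ p).totalDegree ≤ p.totalDegree := totalDegree_le_of_support_subset (cd_support Δ p)

theorem cd_supported (Δ : Derivation κ C C) {p : MvPolynomial ℕ C} {s : Set ℕ}
    (h : p ∈ supported C s) : cd Δ p ∈ supported C s := by
  rw [mem_supported] at h ⊢
  intro i hi
  apply h
  rw [Finset.mem_coe, mem_vars] at hi ⊢
  obtain ⟨d, hd, hid⟩ := hi
  exact ⟨d, cd_support Δ p hd, hid⟩

/-- the shift derivation -/
noncomputable def sd (C : Type*) [Field C] : Derivation C (MvPolynomial ℕ C) (MvPolynomial ℕ C) :=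
  mkDerivation C (fun i => X (i + 1))

theorem sd_X (i : ℕ) : sd C (X i) = X (i + 1) := mkDerivation_X _ _ _

theorem supported_mono' {n m : ℕ} (h : n ≤ m) :
    supported C {i : ℕ | i < n} ≤ supported C {i : ℕ | i < m} :=
  supported_mono fun i (hi : i < n) => (lt_of_lt_of_le hi h : i < m)

theorem sd_supported {n : ℕ} {p : MvPolynomial ℕ C} (h : p ∈ supported C {i : ℕ | i < n}) :
    sd C p ∈ supported C {i : ℕ | i < n + 1} := by
  unfold supported at h
  induction h using Algebra.adjoin_induction with
  | mem y hy =>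
    obtain ⟨v, hv, rfl⟩ := hy
    rw [sd_X]
    exact Algebra.subset_adjoin ⟨_, Nat.succ_lt_succ hv, rfl⟩
  | algebraMap a =>
    rw [Derivation.map_algebraMap]
    exact Subalgebra.zero_mem _
  | add a b _ _ ha hb =>
    rw [map_add]
    exact Subalgebra.add_mem _ ha hb
  | mul a b ha' hb' ha hb =>
    rw [Derivation.leibniz]
    exact Subalgebra.add_mem _ (Subalgebra.mul_mem _ (supported_mono' (Nat.le_succ n) ha') hb)
      (Subalgebra.mul_mem _ (supported_mono' (Nat.le_succ n) hb') ha)

theorem sd_totalDegree (r : MvPolynomial ℕ C) : (sd C r).totalDegree ≤ r.totalDegree := by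
  classical
  have h1 : sd C r = ∑ m ∈ r.support, sd C (monomial m (r.coeff m)) := by
    conv_lhs => rw [r.as_sum]
    rw [map_sum]
  rw [h1]
  refine totalDegree_finsetSum_le fun m hm => ?_
  rw [sd, mkDerivation_monomial]
  refine (totalDegree_smul_le _ _).trans ?_
  rw [Finsupp.sum]
  refine totalDegree_finsetSum_le fun v hv => ?_
  rw [smul_eq_mul]
  refine (totalDegree_mul _ _).trans ?_
  refine (Nat.add_le_add (totalDegree_monomial_le _ _) (totalDegree_X _).le).trans ?_
  have h2 : m = (m - Finsupp.single v 1) + Finsupp.single v 1 := by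
    rw [tsub_add_cancel_of_le]
    rw [Finsupp.single_le_iff]
    exact Nat.one_le_iff_ne_zero.2 (Finsupp.mem_support_iff.1 hv)
  have h3 : (m.sum fun _ e => e) = ((m - Finsupp.single v 1).sum fun _ e => e) + 1 := by
    conv_lhs => rw [h2]
    rw [Finsupp.sum_add_index (by simp) (by intros; rfl)]
    simp
  exact le_trans (le_of_eq h3.symm) (le_totalDegree hm)

/-- the total derivative -/
noncomputable def DD (Δ : Derivation κ C C) (p : MvPolynomial ℕ C) : MvPolynomial ℕ C :=
  cd Δ p + sd C p

theorem DD_totalDegree (Δ : Derivation κ C C) (p : MvPolynomial ℕ C) :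
    (DD Δ p).totalDegree ≤ p.totalDegree :=
  (totalDegree_add _ _).trans (max_le (cd_totalDegree Δ p) (sd_totalDegree p))

theorem DD_supported (Δ : Derivation κ C C) {n : ℕ} {p : MvPolynomial ℕ C}
    (h : p ∈ supported C {i : ℕ | i < n}) : DD Δ p ∈ supported C {i : ℕ | i < n + 1} :=
  Subalgebra.add_mem _ (supported_mono' (Nat.le_succ n) (cd_supported Δ h)) (sd_supported h)

/-- the value at the jets of a point -/
noncomputable def ev (Δ : Derivation κ C C) (y : C) : MvPolynomial ℕ C →+* C :=
  eval (fun i => dit Δ i y)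

theorem ev_DD (Δ : Derivation κ C C) (y : C) (p : MvPolynomial ℕ C) :
    ev Δ y (DD Δ p) = Δ (ev Δ y p) := by
  unfold ev DD
  induction p using MvPolynomial.induction_on with
  | C a =>
    rw [cd_C, ← MvPolynomial.algebraMap_eq, Derivation.map_algebraMap, add_zero,
      MvPolynomial.algebraMap_eq, eval_C, eval_C]
  | add p q hp hq =>
    rw [map_add] at hp hq
    rw [cd_add, map_add (sd C), map_add, map_add, map_add, map_add, map_add, ← hp, ← hq]
    ring
  | mul_X p i hp =>
    rw [map_add] at hp
    rw [cd_mul_X, Derivation.leibniz, sd_X, map_add, map_add, map_mul, map_mul, Derivation.leibniz,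
      ← hp, eval_X, smul_eq_mul, smul_eq_mul, smul_eq_mul, smul_eq_mul, map_mul, map_mul, eval_X,
      eval_X, dit_succ]
    ring

theorem ev_iter (Δ : Derivation κ C C) (y : C) (j : ℕ) (p : MvPolynomial ℕ C) :
    ev Δ y ((DD Δ)^[j] p) = dit Δ j (ev Δ y p) := by
  induction j with
  | zero => rfl
  | succ j ih => rw [Function.iterate_succ_apply', ev_DD, ih, dit_succ]

/-- The sum in the shift derivation of a polynomial in the first `n + 1` variables. -/
theorem sd_eq {n : ℕ} {p : MvPolynomial ℕ C} (h : p ∈ supported C {i : ℕ | i < n + 1}) :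
    sd C p = ∑ i ∈ Finset.range (n + 1), X (i + 1) * pderiv i p := by
  have h1 : sd C p = (∑ i ∈ Finset.range (n + 1), (X (i + 1) : MvPolynomial ℕ C) •
      (pderiv i : Derivation C (MvPolynomial ℕ C) (MvPolynomial ℕ C))) p := by
    apply derivation_eq_of_forall_mem_vars
    intro i hi
    rw [mem_supported] at h
    have hin : i < n + 1 := h hi
    rw [sd_X]
    have h2 : ∀ (s : Finset ℕ) (f : ℕ → Derivation C (MvPolynomial ℕ C) (MvPolynomial ℕ C))
        (q : MvPolynomial ℕ C), (∑ j ∈ s, f j) q = ∑ j ∈ s, f j q := by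
      classical
      intro s f q
      induction s using Finset.induction_on with
      | empty => simp
      | insert a s ha ih => rw [Finset.sum_insert ha, Finset.sum_insert ha, Derivation.add_apply, ih]
    rw [h2, Finset.sum_eq_single i]
    · rw [Derivation.smul_apply, pderiv_X_self, smul_eq_mul, mul_one]
    · intro j _ hj
      rw [Derivation.smul_apply, pderiv_X_of_ne hj.symm, smul_zero]
    · intro hn
      exact absurd (Finset.mem_range.2 hin) hn
  rw [h1]
  have h2 : ∀ (s : Finset ℕ) (f : ℕ → Derivation C (MvPolynomial ℕ C) (MvPolynomial ℕ C))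
      (q : MvPolynomial ℕ C), (∑ j ∈ s, f j) q = ∑ j ∈ s, f j q := by
    classical
    intro s f q
    induction s using Finset.induction_on with
    | empty => simp
    | insert a s ha ih => rw [Finset.sum_insert ha, Finset.sum_insert ha, Derivation.add_apply, ih]
  rw [h2]
  rfl

theorem pderiv_totalDegree (i : ℕ) (p : MvPolynomial ℕ C) (h : pderiv i p ≠ 0) :
    (pderiv i p).totalDegree + 1 ≤ p.totalDegree := by
  classical
  have h1 : ∀ m ∈ (pderiv i p).support, (m.sum fun _ e => e) + 1 ≤ p.totalDegree := by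
    intro m hm
    rw [mem_support_iff, coeff_pderiv] at hm
    have h2 : m + Finsupp.single i 1 ∈ p.support := by
      rw [mem_support_iff]
      intro h0
      rw [h0, zero_mul] at hm
      exact hm rfl
    have h3 := le_totalDegree h2
    rw [Finsupp.sum_add_index (by simp) (by intros; rfl)] at h3
    simpa using h3
  obtain ⟨m, hm⟩ := support_nonempty.2 h
  have h4 : (pderiv i p).totalDegree ≤ p.totalDegree - 1 := by
    unfold totalDegree
    refine Finset.sup_le fun m hm => ?_
    have := h1 m hm
    unfold totalDegree at this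
    omega
  have h5 := h1 m hm
  omega

theorem pderiv_supported (i : ℕ) {p : MvPolynomial ℕ C} {s : Set ℕ}
    (h : p ∈ supported C s) : pderiv i p ∈ supported C s := by
  classical
  rw [mem_supported] at h ⊢
  intro j hj
  apply h
  rw [Finset.mem_coe, mem_vars] at hj ⊢
  obtain ⟨d, hd, hid⟩ := hj
  rw [mem_support_iff, coeff_pderiv] at hd
  refine ⟨d + Finsupp.single i 1, ?_, ?_⟩
  · rw [mem_support_iff]
    intro h0
    rw [h0, zero_mul] at hd
    exact hd rfl
  · rw [Finsupp.mem_support_iff] at hid ⊢
    rw [Finsupp.add_apply]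
    omega

/-- The remainders `G j` with `D ^ j F = S X (n + j) + G j`. -/
noncomputable def rem (Δ : Derivation κ C C) (n : ℕ) (F : MvPolynomial ℕ C) : ℕ → MvPolynomial ℕ C
  | 0 => cd Δ F + ∑ i ∈ Finset.range n, X (i + 1) * pderiv i F
  | j + 1 => DD Δ (pderiv n F) * X (n + (j + 1)) + DD Δ (rem Δ n F j)

theorem ev_rem (Δ : Derivation κ C C) {n : ℕ} {F : MvPolynomial ℕ C}
    (hF : F ∈ supported C {i : ℕ | i < n + 1}) (y : C) (j : ℕ) :
    dit Δ (j + 1) (ev Δ y F) =
      ev Δ y (pderiv n F) * dit Δ (n + (j + 1)) y + ev Δ y (rem Δ n F j) := by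
  induction j with
  | zero =>
    rw [dit_succ, dit_zero, ← ev_DD]
    unfold DD rem
    rw [sd_eq hF, Finset.sum_range_succ, ← add_assoc, map_add, map_mul]
    have h1 : ev Δ y (X (n + 1)) = dit Δ (n + (0 + 1)) y := eval_X _
    rw [h1]
    ring
  | succ j ih =>
    rw [dit_succ, ih, map_add, Derivation.leibniz, smul_eq_mul, smul_eq_mul, ← ev_DD, ← ev_DD]
    have h2 : rem Δ n F (j + 1) = DD Δ (pderiv n F) * X (n + (j + 1)) + DD Δ (rem Δ n F j) := rfl
    rw [h2, map_add, map_mul]
    have h1 : ev Δ y (X (n + (j + 1))) = dit Δ (n + (j + 1)) y := eval_X _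
    have h3 : dit Δ (n + (j + 1 + 1)) y = Δ (dit Δ (n + (j + 1)) y) := by
      rw [← dit_succ]
      rfl
    rw [h1, h3]
    ring

theorem rem_supported (Δ : Derivation κ C C) {n : ℕ} {F : MvPolynomial ℕ C}
    (hF : F ∈ supported C {i : ℕ | i < n + 1}) (j : ℕ) :
    rem Δ n F j ∈ supported C {i : ℕ | i < n + (j + 1)} := by
  induction j with
  | zero =>
    refine Subalgebra.add_mem _ (cd_supported Δ hF) (Subalgebra.sum_mem _ fun i hi => ?_)
    refine Subalgebra.mul_mem _ ?_ (pderiv_supported i hF)
    rw [X_mem_supported]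
    have := Finset.mem_range.1 hi
    show i + 1 < n + 1
    omega
  | succ j ih =>
    refine Subalgebra.add_mem _ (Subalgebra.mul_mem _ ?_ ?_) (DD_supported Δ ih)
    · exact supported_mono' (by omega) (DD_supported Δ (pderiv_supported n hF))
    · rw [X_mem_supported]
      show n + (j + 1) < n + (j + 1 + 1)
      omega

theorem rem_totalDegree (Δ : Derivation κ C C) {n : ℕ} {F : MvPolynomial ℕ C} {d : ℕ}
    (hd : F.totalDegree ≤ d) (j : ℕ) : (rem Δ n F j).totalDegree ≤ d + 1 := by
  have hp : ∀ i, (pderiv i F).totalDegree ≤ d := by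
    intro i
    by_cases h : pderiv i F = 0
    · rw [h, totalDegree_zero]
      exact Nat.zero_le _
    · have := pderiv_totalDegree i F h
      omega
  induction j with
  | zero =>
    refine (totalDegree_add _ _).trans (max_le ?_ ?_)
    · exact (cd_totalDegree Δ F).trans (by omega)
    · refine totalDegree_finsetSum_le fun i _ => ?_
      refine (totalDegree_mul _ _).trans ?_
      rw [totalDegree_X]
      have := hp i
      omega
  | succ j ih =>
    refine (totalDegree_add _ _).trans (max_le ?_ ?_)
    · refine (totalDegree_mul _ _).trans ?_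
      rw [totalDegree_X]
      have := (DD_totalDegree Δ (pderiv n F)).trans (hp n)
      omega
    · exact (DD_totalDegree Δ _).trans ih

end Ring

end Pool.Agent.Zk44.GE.Ode
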