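import Mathlib
import Pool.Agent.Zk44.GE.DPoly

/-!
# Points with coordinates in a finite set which satisfy a differential relation
-/

set_option autoImplicit false

namespace Pool.Agent.Zk44.GE.Ode

open MvPolynomial
open Pool.Agent.R351

section InP

/-- `f` is a polynomial of degree at most `T` in `v 0, …, v (n - 1)`. -/
def InP (C : Type*) {R : Type*} [Field C] [CommRing R] [Algebra C R] (v : ℕ → R) (n T : ℕ)
    (f : R) : Prop :=
  ∃ p : MvPolynomial ℕ C, p ∈ supported C {i : ℕ | i < n} ∧ p.totalDegree ≤ T ∧ aeval v p = f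

variable {C R : Type*} [Field C] [CommRing R] [Algebra C R] {v w : ℕ → R} {n n' T T' : ℕ} {f g : R}

theorem InP.mono (h : InP C v n T f) (hn : n ≤ n') (hT : T ≤ T') : InP C v n' T' f := by
  obtain ⟨p, h1, h2, h3⟩ := h
  exact ⟨p, supported_mono' hn h1, h2.trans hT, h3⟩

theorem InP.add (hf : InP C v n T f) (hg : InP C v n T g) : InP C v n T (f + g) := by
  obtain ⟨p, h1, h2, h3⟩ := hf
  obtain ⟨q, k1, k2, k3⟩ := hg
  exact ⟨p + q, Subalgebra.add_mem _ h1 k1, (totalDegree_add _ _).trans (max_le h2 k2), by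
    rw [map_add, h3, k3]⟩

theorem InP.mul (hf : InP C v n T f) (hg : InP C v n T' g) : InP C v n (T + T') (f * g) := by
  obtain ⟨p, h1, h2, h3⟩ := hf
  obtain ⟨q, k1, k2, k3⟩ := hg
  exact ⟨p * q, Subalgebra.mul_mem _ h1 k1, (totalDegree_mul _ _).trans (Nat.add_le_add h2 k2), by
    rw [map_mul, h3, k3]⟩

theorem InP.const (a : C) : InP C v n 0 (algebraMap C R a) :=
  ⟨MvPolynomial.C a, Subalgebra.algebraMap_mem _ a, (totalDegree_C a).le, by
    rw [← MvPolynomial.algebraMap_eq, AlgHom.commutes]⟩

theorem InP.one : InP C v n 0 (1 : R) := by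
  have := InP.const (C := C) (v := v) (n := n) 1
  rwa [map_one] at this

theorem InP.zero : InP C v n 0 (0 : R) := by
  have := InP.const (C := C) (v := v) (n := n) 0
  rwa [map_zero] at this

theorem InP.var {i : ℕ} (hi : i < n) : InP C v n 1 (v i) :=
  ⟨X i, X_mem_supported.2 hi, (totalDegree_X i).le, aeval_X _ _⟩

theorem InP.smul (a : C) (hf : InP C v n T f) : InP C v n T (a • f) := by
  have := (InP.const (v := v) (n := n) a).mul hf
  rw [Algebra.smul_def]
  exact this.mono le_rfl (by omega)

theorem InP.neg (hf : InP C v n T f) : InP C v n T (-f) := by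
  have := hf.smul (-1 : C)
  rwa [neg_smul, one_smul] at this

theorem InP.pow (hf : InP C v n T f) (k : ℕ) : InP C v n (k * T) (f ^ k) := by
  induction k with
  | zero =>
    rw [pow_zero, Nat.zero_mul]
    exact InP.one
  | succ k ih =>
    rw [pow_succ]
    exact (ih.mul hf).mono le_rfl (by rw [Nat.succ_mul])

theorem InP.sum {ι : Type*} (s : Finset ι) (f : ι → R) (h : ∀ i ∈ s, InP C v n T (f i)) :
    InP C v n T (∑ i ∈ s, f i) := by
  classical
  induction s using Finset.induction_on with
  | empty =>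
    rw [Finset.sum_empty]
    exact InP.zero.mono le_rfl (Nat.zero_le _)
  | insert a s ha ih =>
    rw [Finset.sum_insert ha]
    exact (h a (Finset.mem_insert_self _ _)).add (ih fun i hi => h i (Finset.mem_insert_of_mem hi))

theorem InP.prod {ι : Type*} (s : Finset ι) (f : ι → R) (t : ι → ℕ)
    (h : ∀ i ∈ s, InP C v n (t i) (f i)) : InP C v n (∑ i ∈ s, t i) (∏ i ∈ s, f i) := by
  classical
  induction s using Finset.induction_on with
  | empty =>
    rw [Finset.prod_empty, Finset.sum_empty]
    exact InP.one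
  | insert a s ha ih =>
    rw [Finset.prod_insert ha, Finset.sum_insert ha]
    exact (h a (Finset.mem_insert_self _ _)).mul (ih fun i hi => h i (Finset.mem_insert_of_mem hi))

/-- Substitution with a denominator. -/
theorem InP.subst {s : R} {m a D : ℕ} (hs : InP C w n D s)
    (hv : ∀ i < m, InP C w n D (s ^ a * v i)) (hf : InP C v m T f) :
    InP C w n ((a + 1) * D * T) (s ^ (a * T) * f) := by
  classical
  obtain ⟨p, h1, h2, rfl⟩ := hf
  rw [aeval_def, eval₂_eq, Finset.mul_sum]
  refine InP.sum _ _ fun e he => ?_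
  have hT : (e.sum fun _ k => k) ≤ T := (le_totalDegree he).trans h2
  have hsum : (e.sum fun _ k => k) = ∑ i ∈ e.support, e i := rfl
  rw [hsum] at hT
  obtain ⟨r, hr⟩ : ∃ r, r + ∑ i ∈ e.support, e i = T := ⟨T - _, Nat.sub_add_cancel hT⟩
  have hsub : ∀ i ∈ e.support, i < m := by
    intro i hi
    rw [mem_supported] at h1
    exact h1 (Finset.mem_coe.2 (mem_vars_iff_mem_support i |>.2 ⟨e, he, hi⟩))
  have h3 : s ^ (a * T) * (algebraMap C R (coeff e p) * ∏ i ∈ e.support, v i ^ e i) =
      coeff e p • (s ^ (a * r) * ∏ i ∈ e.support, (s ^ a * v i) ^ e i) := by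
    have h4 : ∏ i ∈ e.support, (s ^ a * v i) ^ e i =
        s ^ (a * ∑ i ∈ e.support, e i) * ∏ i ∈ e.support, v i ^ e i := by
      simp only [mul_pow]
      rw [Finset.prod_mul_distrib, Finset.mul_sum, ← Finset.prod_pow_eq_pow_sum]
      simp only [pow_mul]
    rw [h4, ← hr, Nat.mul_add, pow_add, Algebra.smul_def]
    ring
  rw [h3]
  refine InP.smul _ ?_
  have h5 := (hs.pow (a * r)).mul (InP.prod e.support (fun i => (s ^ a * v i) ^ e i)
    (fun i => e i * D) (fun i hi => (hv i (hsub i hi)).pow (e i)))
  refine h5.mono le_rfl ?_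
  rw [← Finset.sum_mul, ← hr]
  nlinarith [Nat.zero_le (D * r), Nat.zero_le (a * D * ∑ i ∈ e.support, e i)]

end InP

section Count

variable {C : Type*} [Field C] {X : Type*} [Fintype X]

/-- The number of points is at most the number of monomials. -/
theorem card_le_of_InP {v : ℕ → (X → C)} {n T : ℕ} (h : ∀ f : X → C, InP C v n T f) :
    Fintype.card X ≤ (T + 1) ^ n := by
  classical
  let mon : (Fin n → Fin (T + 1)) → (X → C) := fun e => ∏ i : Fin n, v i ^ (e i : ℕ)
  have h1 : (⊤ : Submodule C (X → C)) ≤ Submodule.span C (Set.range mon) := by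
    intro f _
    obtain ⟨p, h1, h2, rfl⟩ := h f
    rw [aeval_def, eval₂_eq]
    refine Submodule.sum_mem _ fun e he => ?_
    rw [← Algebra.smul_def]
    refine Submodule.smul_mem _ _ (Submodule.subset_span ?_)
    have hle : ∀ i, e i ≤ T := by
      intro i
      by_cases hi : i ∈ e.support
      · have h3 : e i ≤ ∑ j ∈ e.support, e j :=
          Finset.single_le_sum (f := fun j => e j) (fun _ _ => Nat.zero_le _) hi
        exact h3.trans ((le_totalDegree he).trans h2)
      · rw [Finsupp.notMem_support_iff.1 hi]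
        exact Nat.zero_le _
    refine ⟨fun i => ⟨e i, Nat.lt_succ_of_le (hle i)⟩, ?_⟩
    have hsub : ∀ i ∈ e.support, i < n := by
      intro i hi
      rw [mem_supported] at h1
      exact h1 (Finset.mem_coe.2 (mem_vars_iff_mem_support i |>.2 ⟨e, he, hi⟩))
    simp only [mon]
    rw [Fin.prod_univ_eq_prod_range (fun i => v i ^ e i) n]
    symm
    apply Finset.prod_subset
    · intro i hi
      exact Finset.mem_range.2 (hsub i hi)
    · intro i _ hi
      rw [Finsupp.notMem_support_iff.1 hi, pow_zero]
  have h2 : Module.finrank C (X → C) ≤ (T + 1) ^ n := by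
    have h3 : Submodule.span C (Set.range mon) = ⊤ := top_le_iff.1 h1
    have h4 := finrank_range_le_card (R := C) mon
    rw [Set.finrank, h3, finrank_top] at h4
    refine h4.trans ?_
    rw [Fintype.card_fun, Fintype.card_fin, Fintype.card_fin]
  rwa [Module.finrank_fintype_fun_eq_card] at h2

/-- Lagrange interpolation. -/
theorem lagrange [DecidableEq C] {N : ℕ} (β : ℕ → X → C) (A : Finset C)
    (hA : ∀ k < N, ∀ x, β k x ∈ A) (hsep : ∀ x x' : X, (∀ k < N, β k x = β k x') → x = x')
    (f : X → C) : InP C β N (N * A.card) f := by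
  classical
  let δ : X → (X → C) := fun x => ∏ k ∈ Finset.range N, ∏ c ∈ A.erase (β k x),
    (β k x - c)⁻¹ • (β k - algebraMap C (X → C) c)
  have h1 : ∀ x, InP C β N (N * A.card) (δ x) := by
    intro x
    have h2 := InP.prod (C := C) (v := β) (n := N) (Finset.range N)
      (fun k => ∏ c ∈ A.erase (β k x), (β k x - c)⁻¹ • (β k - algebraMap C (X → C) c))
      (fun k => ∑ c ∈ A.erase (β k x), 1) (fun k hk => by
        refine InP.prod _ _ _ fun c _ => InP.smul _ ?_
        rw [sub_eq_add_neg]
        exact (InP.var (Finset.mem_range.1 hk)).add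
          (((InP.const c).neg).mono le_rfl (Nat.zero_le _)))
    refine h2.mono le_rfl ?_
    simp only [Finset.sum_const, smul_eq_mul, mul_one]
    refine (Finset.sum_le_card_nsmul (Finset.range N) _ A.card
      (fun k _ => Finset.card_erase_le)).trans ?_
    rw [Finset.card_range, smul_eq_mul]
  have h2 : ∀ x x', δ x x' = if x' = x then 1 else 0 := by
    intro x x'
    simp only [δ]
    rw [Finset.prod_apply]
    simp only [Finset.prod_apply, Pi.smul_apply, Pi.sub_apply, smul_eq_mul]
    split_ifs with h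
    · subst h
      refine Finset.prod_eq_one fun k _ => Finset.prod_eq_one fun c hc => ?_
      have h3 : β k x' - c ≠ 0 := sub_ne_zero.2 (Finset.ne_of_mem_erase hc).symm
      have h4 : (algebraMap C (X → C) c) x' = c := rfl
      rw [h4, inv_mul_cancel₀ h3]
    · have h3 : ∃ k < N, β k x ≠ β k x' := by
        by_contra hcon
        push Not at hcon
        exact h (hsep x x' hcon).symm
      obtain ⟨k, hk, hne⟩ := h3
      refine Finset.prod_eq_zero (Finset.mem_range.2 hk) ?_
      refine Finset.prod_eq_zero (i := β k x') (Finset.mem_erase.2 ⟨fun h => hne h.symm, hA k hk x'⟩)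
        ?_
      have h4 : (algebraMap C (X → C) (β k x')) x' = β k x' := rfl
      rw [h4, sub_self, mul_zero]
  have h3 : f = ∑ x, f x • δ x := by
    funext x'
    rw [Finset.sum_apply]
    simp only [Pi.smul_apply, h2, smul_eq_mul, mul_ite, mul_one, mul_zero]
    rw [Finset.sum_ite_eq]
    simp
  rw [h3]
  exact InP.sum _ _ fun x _ => (h1 x).smul _

end Count

end Pool.Agent.Zk44.GE.Ode
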