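import Mathlib
import Pool.Agent.Zk44.GE.InP

/-!
# Constants for which a combination satisfies a differential equation
-/

set_option autoImplicit false

namespace Pool.Agent.Zk44.GE.Ode

open MvPolynomial
open Pool.Agent.R351

section Jets

variable {κ C : Type} [Field κ] [Field C] [Algebra κ C]

/-- the combination -/
def cb {N : ℕ} (lam : Fin N → C) (z : C) (b : Fin N → κ) : C := z + ∑ k, b k • lam k

theorem dit_cb {N : ℕ} (Δ : Derivation κ C C) (lam : Fin N → C) (z : C) (b : Fin N → κ) (c : ℕ) :
    dit Δ c (cb lam z b) = dit Δ c z + ∑ k, b k • dit Δ c (lam k) := by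
  unfold cb
  rw [dit_add, dit_sum]
  simp only [dit_smul]

/-- the jets as functions on a finite set of points -/
noncomputable def vj {N : ℕ} (Δ : Derivation κ C C) (lam : Fin N → C) (z : C)
    (B : Finset (Fin N → κ)) (i : ℕ) : B → C := fun b => dit Δ i (cb lam z b.1)

theorem aeval_vj {N : ℕ} (Δ : Derivation κ C C) (lam : Fin N → C) (z : C)
    (B : Finset (Fin N → κ)) (p : MvPolynomial ℕ C) (b : B) :
    (aeval (vj Δ lam z B) p) b = ev Δ (cb lam z b.1) p := by
  have h1 : ((Pi.evalAlgHom C (fun _ : B => C) b).comp (aeval (vj Δ lam z B))) =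
      aeval (fun i => dit Δ i (cb lam z b.1)) := by
    apply MvPolynomial.algHom_ext
    intro i
    rw [AlgHom.comp_apply, aeval_X, aeval_X]
    rfl
  have h2 := DFunLike.congr_fun h1 p
  rw [AlgHom.comp_apply] at h2
  have h3 : ev Δ (cb lam z b.1) p = aeval (fun i => dit Δ i (cb lam z b.1)) p := by
    unfold ev
    rw [← MvPolynomial.coe_aeval_eq_eval]
    rfl
  rw [h3]
  exact h2

/-- the coordinates are polynomials of degree one in the jets -/
theorem coord_InP {N : ℕ} (Δ : Derivation κ C C)
    (hΔ : ∀ z, Δ z = 0 → ∃ a : κ, algebraMap κ C a = z) (lam : Fin N → C)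
    (hlam : LinearIndependent κ lam) (z : C) (B : Finset (Fin N → κ)) (k : Fin N) :
    InP C (vj Δ lam z B) N 1 (fun b => algebraMap κ C (b.1 k)) := by
  classical
  let M : Matrix (Fin N) (Fin N) C := Matrix.of fun i c : Fin N => dit Δ c (lam i)
  have hM : IsUnit M.det := isUnit_iff_ne_zero.2 (wronskian_ne_zero Δ hΔ N lam hlam)
  have h1 : (fun b : B => algebraMap κ C (b.1 k)) =
      ∑ c : Fin N, M⁻¹ c k • (vj Δ lam z B c - algebraMap C (B → C) (dit Δ c z)) := by
    funext b
    rw [Finset.sum_apply]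
    simp only [Pi.smul_apply, Pi.sub_apply, smul_eq_mul]
    have h2 : ∀ c : Fin N, vj Δ lam z B c b - (algebraMap C (B → C) (dit Δ c z)) b =
        ∑ i, algebraMap κ C (b.1 i) * M i c := by
      intro c
      have h3 : (algebraMap C (B → C) (dit Δ c z)) b = dit Δ c z := rfl
      rw [h3]
      unfold vj
      rw [dit_cb, add_sub_cancel_left]
      refine Finset.sum_congr rfl fun i _ => ?_
      rw [Algebra.smul_def]
      rfl
    simp only [h2, Finset.mul_sum]
    rw [Finset.sum_comm]
    have h4 : ∀ i, ∑ c, M⁻¹ c k * (algebraMap κ C (b.1 i) * M i c) =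
        algebraMap κ C (b.1 i) * (if i = k then 1 else 0) := by
      intro i
      have h5 : ∑ c, M i c * M⁻¹ c k = if i = k then 1 else 0 := by
        have h6 := congrFun (congrFun (Matrix.mul_nonsing_inv M hM) i) k
        rw [Matrix.mul_apply, Matrix.one_apply] at h6
        exact h6
      rw [← h5, Finset.mul_sum]
      exact Finset.sum_congr rfl fun c _ => by ring
    simp only [h4, mul_ite, mul_one, mul_zero]
    rw [Finset.sum_ite_eq']
    simp
  rw [h1]
  refine InP.sum _ _ fun c _ => InP.smul _ ?_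
  rw [sub_eq_add_neg]
  exact (InP.var c.2).add (((InP.const _).neg).mono le_rfl (Nat.zero_le _))

/-- All jets are polynomials in the first ones, up to a power of the separant. -/
theorem jets_InP (n d : ℕ) : ∀ m : ℕ, ∃ a D : ℕ, ∀ (κ C : Type) [Field κ] [Field C] [Algebra κ C]
    (Δ : Derivation κ C C) (N : ℕ) (lam : Fin N → C) (z : C) (B : Finset (Fin N → κ))
    (F : MvPolynomial ℕ C), F ∈ supported C {i : ℕ | i < n + 1} → F.totalDegree ≤ d →
    (∀ b ∈ B, ev Δ (cb lam z b) F = 0) →
    InP C (vj Δ lam z B) (n + 1) D (aeval (vj Δ lam z B) (pderiv n F)) ∧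
    ∀ i < m, InP C (vj Δ lam z B) (n + 1) D
      (aeval (vj Δ lam z B) (pderiv n F) ^ a * vj Δ lam z B i) := by
  intro m
  induction m with
  | zero =>
    refine ⟨0, d, fun κ C _ _ _ Δ N lam z B F hF hd _ => ⟨⟨_, pderiv_supported n hF, ?_, rfl⟩,
      fun i hi => absurd hi (Nat.not_lt_zero i)⟩⟩
    by_cases h : pderiv n F = 0
    · rw [h, totalDegree_zero]
      exact Nat.zero_le _
    · have := pderiv_totalDegree n F h
      omega
  | succ m ih =>
    obtain ⟨a, D, ih⟩ := ih
    refine ⟨a * (d + 1) + 1, (a + 1) * D * (d + 1) + (a * (d + 1) + 2) * D + 1,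
      fun κ C _ _ _ Δ N lam z B F hF hd hB => ?_⟩
    obtain ⟨hS, hv⟩ := ih κ C Δ N lam z B F hF hd hB
    set v := vj Δ lam z B with hvdef
    set S := aeval v (pderiv n F) with hSdef
    have hle : D ≤ (a + 1) * D * (d + 1) + (a * (d + 1) + 2) * D + 1 := by
      nlinarith [Nat.zero_le ((a + 1) * D * (d + 1)), Nat.zero_le (a * (d + 1) * D)]
    refine ⟨hS.mono le_rfl hle, fun i hi => ?_⟩
    rcases Nat.lt_succ_iff_lt_or_eq.1 hi with hi | rfl
    · have h1 : S ^ (a * (d + 1) + 1) * v i = S ^ (a * d + 1) * (S ^ a * v i) := by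
        rw [← mul_assoc, ← pow_add]
        congr 2
        ring
      rw [h1]
      refine ((hS.pow (a * d + 1)).mul (hv i hi)).mono le_rfl ?_
      nlinarith [Nat.zero_le ((a + 1) * D * (d + 1)), Nat.zero_le (a * D)]
    · rcases Nat.lt_or_ge i (n + 1) with hin | hin
      · refine ((hS.pow (a * (d + 1) + 1)).mul (InP.var hin)).mono le_rfl ?_
        nlinarith [Nat.zero_le ((a + 1) * D * (d + 1)), Nat.zero_le (a * (d + 1) * D)]
      · obtain ⟨j, rfl⟩ : ∃ j, i = n + (j + 1) := ⟨i - (n + 1), by omega⟩
        have h1 : S * v (n + (j + 1)) = -(aeval v (rem Δ n F j)) := by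
          funext b
          have h2 := ev_rem Δ hF (cb lam z b.1) j
          rw [hB b.1 b.2, dit_map_zero] at h2
          rw [Pi.mul_apply, Pi.neg_apply, hSdef, hvdef, aeval_vj, aeval_vj]
          have h3 : vj Δ lam z B (n + (j + 1)) b = dit Δ (n + (j + 1)) (cb lam z b.1) := rfl
          rw [h3]
          linear_combination -h2
        have h4 : InP C v (n + (j + 1)) (d + 1) (-(aeval v (rem Δ n F j))) :=
          InP.neg ⟨_, rem_supported Δ hF j, rem_totalDegree Δ hd j, rfl⟩
        have h5 := InP.subst hS (fun i hi => hv i hi) h4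
        rw [← h1] at h5
        have h6 : S ^ (a * (d + 1) + 1) * v (n + (j + 1)) =
            S ^ (a * (d + 1)) * (S * v (n + (j + 1))) := by
          rw [pow_succ]
          ring
        rw [h6]
        refine h5.mono le_rfl ?_
        nlinarith [Nat.zero_le ((a * (d + 1) + 2) * D)]

/-- **The points at which the separant does not vanish.** -/
theorem step_count (n d N : ℕ) : ∃ c : ℕ, ∀ (κ C : Type) [Field κ] [Field C] [Algebra κ C]
    (Δ : Derivation κ C C), (∀ z, Δ z = 0 → ∃ a : κ, algebraMap κ C a = z) →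
    ∀ lam : Fin N → C, LinearIndependent κ lam → ∀ (z : C) (A : Finset κ) (B : Finset (Fin N → κ)),
    (∀ b ∈ B, ∀ k, b k ∈ A) → ∀ F : MvPolynomial ℕ C, F ∈ supported C {i : ℕ | i < n + 1} →
    F.totalDegree ≤ d → (∀ b ∈ B, ev Δ (cb lam z b) F = 0) →
    (∀ b ∈ B, ev Δ (cb lam z b) (pderiv n F) ≠ 0) → B.card ≤ (c * A.card + 1) ^ (n + 1) := by
  obtain ⟨a, D, h⟩ := jets_InP n d N
  refine ⟨(a + 1) * D * N, fun κ C _ _ _ Δ hΔ lam hlam z A B hA F hF hd h0 hS => ?_⟩
  classical
  obtain ⟨h1, h2⟩ := h κ C Δ N lam z B F hF hd h0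
  set v := vj Δ lam z B with hv
  set S := aeval v (pderiv n F) with hSdef
  have hS0 : ∀ b : B, S b ≠ 0 := by
    intro b
    rw [hSdef, hv, aeval_vj]
    exact hS b.1 b.2
  let β : ℕ → B → C := fun k b => if hk : k < N then algebraMap κ C (b.1 ⟨k, hk⟩) else 0
  have hβ : ∀ k < N, InP C v N 1 (β k) := by
    intro k hk
    have h3 := coord_InP Δ hΔ lam hlam z B ⟨k, hk⟩
    have h4 : β k = fun b : B => algebraMap κ C (b.1 ⟨k, hk⟩) := by
      funext b
      exact dif_pos hk
    rw [h4]
    exact h3
  have hall : ∀ f : B → C, InP C v N (N * A.card) f := by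
    intro f
    have h3 := lagrange β (A.image (algebraMap κ C)) (by
      intro k hk b
      have h4 : β k b = algebraMap κ C (b.1 ⟨k, hk⟩) := dif_pos hk
      rw [h4]
      exact Finset.mem_image_of_mem _ (hA b.1 b.2 _)) (by
      intro b b' hbb
      apply Subtype.ext
      funext k
      have h4 := hbb k k.2
      have e1 : β k b = algebraMap κ C (b.1 k) := dif_pos k.2
      have e2 : β k b' = algebraMap κ C (b'.1 k) := dif_pos k.2
      rw [e1, e2] at h4
      exact (algebraMap κ C).injective h4) f
    have h5 : InP C v N (N * (A.image (algebraMap κ C)).card) f := by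
      have h6 := InP.subst (s := (1 : B → C)) (a := 0) (D := 1) (InP.one.mono le_rfl (Nat.zero_le 1))
        (fun i hi => by
          rw [one_pow, one_mul]
          exact hβ i hi) h3
      rw [one_pow, one_mul] at h6
      exact h6.mono le_rfl (by simp)
    exact h5.mono le_rfl (Nat.mul_le_mul_left _ Finset.card_image_le)
  have hall' : ∀ f : B → C, InP C v (n + 1) ((a + 1) * D * (N * A.card)) f := by
    intro f
    have h3 := InP.subst h1 h2 (hall (fun b => (S b ^ (a * (N * A.card)))⁻¹ * f b))
    have h4 : S ^ (a * (N * A.card)) * (fun b => (S b ^ (a * (N * A.card)))⁻¹ * f b) = f := by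
      funext b
      rw [Pi.mul_apply, Pi.pow_apply, ← mul_assoc, mul_inv_cancel₀ (pow_ne_zero _ (hS0 b)), one_mul]
    rw [h4] at h3
    exact h3
  have h3 := card_le_of_InP hall'
  rw [Fintype.card_coe] at h3
  refine h3.trans (Nat.pow_le_pow_left (Nat.add_le_add_right ?_ 1) _)
  rw [Nat.mul_assoc, Nat.mul_assoc, Nat.mul_assoc]

theorem notMem_vars_of_pderiv {C : Type} [Field C] [CharZero C] {F : MvPolynomial ℕ C} {i : ℕ}
    (h : pderiv i F = 0) : i ∉ F.vars := by
  classical
  intro hi
  obtain ⟨e, he, hie⟩ := (mem_vars_iff_mem_support i).1 hi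
  have h1 : coeff (e - Finsupp.single i 1) (pderiv i F) = 0 := by rw [h, coeff_zero]
  rw [coeff_pderiv] at h1
  have h2 : e - Finsupp.single i 1 + Finsupp.single i 1 = e := by
    rw [tsub_add_cancel_of_le]
    rw [Finsupp.single_le_iff]
    exact Nat.one_le_iff_ne_zero.2 (Finsupp.mem_support_iff.1 hie)
  rw [h2] at h1
  rcases mul_eq_zero.1 h1 with h3 | h3
  · exact (mem_support_iff.1 he) h3
  · exact (Nat.cast_add_one_ne_zero _) h3

/-- **The number of points on a grid of constants at which a combination satisfies a differential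
equation of order less than `n`.** -/
theorem count_ode (n N : ℕ) : ∀ d : ℕ, ∃ c : ℕ, ∀ (κ C : Type) [Field κ] [Field C] [CharZero C]
    [Algebra κ C] (Δ : Derivation κ C C), (∀ z, Δ z = 0 → ∃ a : κ, algebraMap κ C a = z) →
    ∀ lam : Fin N → C, LinearIndependent κ lam → ∀ (z : C) (A : Finset κ), A.Nonempty →
    ∀ B : Finset (Fin N → κ), (∀ b ∈ B, ∀ k, b k ∈ A) → ∀ F : MvPolynomial ℕ C, F ≠ 0 →
    F ∈ supported C {i : ℕ | i < n} → F.totalDegree ≤ d → (∀ b ∈ B, ev Δ (cb lam z b) F = 0) →
    B.card ≤ c * A.card ^ n := by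
  intro d
  induction d with
  | zero =>
    refine ⟨0, fun κ C _ _ _ _ Δ hΔ lam hlam z A hA B hBA F hF0 hF hd h0 => ?_⟩
    have h1 : F = MvPolynomial.C (coeff 0 F) := totalDegree_eq_zero_iff_eq_C.1 (Nat.le_zero.1 hd)
    rw [Nat.zero_mul, Nat.le_zero, Finset.card_eq_zero, Finset.eq_empty_iff_forall_notMem]
    intro b hb
    have h2 := h0 b hb
    rw [h1] at h2
    unfold ev at h2
    rw [eval_C] at h2
    apply hF0
    rw [h1, h2, map_zero]
  | succ d ih =>
    choose f hf using fun i : ℕ => step_count i (d + 1) N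
    obtain ⟨c, ih⟩ := ih
    refine ⟨c + ∑ i ∈ Finset.range n, (f i + 1) ^ n,
      fun κ C _ _ _ _ Δ hΔ lam hlam z A hA B hBA F hF0 hF hd h0 => ?_⟩
    classical
    have hA1 : 1 ≤ A.card := hA.card_pos
    by_cases hex : ∃ i < n, pderiv i F ≠ 0
    · -- the last variable
      have hex' : ((Finset.range n).filter (fun i => pderiv i F ≠ 0)).Nonempty := by
        obtain ⟨i, hi, hi'⟩ := hex
        exact ⟨i, Finset.mem_filter.2 ⟨Finset.mem_range.2 hi, hi'⟩⟩
      set i := ((Finset.range n).filter (fun i => pderiv i F ≠ 0)).max' hex' with hi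
      have him := Finset.max'_mem _ hex'
      rw [← hi, Finset.mem_filter, Finset.mem_range] at him
      obtain ⟨hin, hiF⟩ := him
      have hmax : ∀ j, i < j → pderiv j F = 0 := by
        intro j hj
        by_contra hcon
        by_cases hjn : j < n
        · have hmem : j ∈ (Finset.range n).filter (fun i => pderiv i F ≠ 0) :=
            Finset.mem_filter.2 ⟨Finset.mem_range.2 hjn, hcon⟩
          have := Finset.le_max' _ j hmem
          omega
        · apply hcon
          apply pderiv_eq_zero_of_notMem_vars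
          intro hjv
          rw [mem_supported] at hF
          exact hjn (hF hjv)
      have hFi : F ∈ supported C {j : ℕ | j < i + 1} := by
        rw [mem_supported]
        intro j hj
        by_contra hcon
        have hcon' : ¬ j < i + 1 := hcon
        exact notMem_vars_of_pderiv (hmax j (by omega)) hj
      set S := pderiv i F with hS
      have hSd : S.totalDegree ≤ d := by
        have h5 := pderiv_totalDegree i F hiF
        rw [← hS] at h5
        omega
      set B₁ := B.filter (fun b => ev Δ (cb lam z b) S = 0) with hB₁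
      set B₂ := B.filter (fun b => ¬ ev Δ (cb lam z b) S = 0) with hB₂
      have hsum : B₁.card + B₂.card = B.card := Finset.card_filter_add_card_filter_not _
      have h1 : B₁.card ≤ c * A.card ^ n :=
        ih κ C Δ hΔ lam hlam z A hA B₁ (fun b hb => hBA b (Finset.mem_filter.1 hb).1) S hiF
          (pderiv_supported i hF) hSd (fun b hb => (Finset.mem_filter.1 hb).2)
      have h2 : B₂.card ≤ (f i * A.card + 1) ^ (i + 1) :=
        hf i κ C Δ hΔ lam hlam z A B₂ (fun b hb => hBA b (Finset.mem_filter.1 hb).1) F hFi hd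
          (fun b hb => h0 b (Finset.mem_filter.1 hb).1) (fun b hb => (Finset.mem_filter.1 hb).2)
      have h3 : (f i * A.card + 1) ^ (i + 1) ≤ (f i + 1) ^ n * A.card ^ n := by
        calc (f i * A.card + 1) ^ (i + 1) ≤ ((f i + 1) * A.card) ^ (i + 1) :=
              Nat.pow_le_pow_left (by nlinarith) _
          _ ≤ ((f i + 1) * A.card) ^ n := Nat.pow_le_pow_right (by nlinarith) (by omega)
          _ = (f i + 1) ^ n * A.card ^ n := mul_pow _ _ _
      have h4 : (f i + 1) ^ n ≤ ∑ i ∈ Finset.range n, (f i + 1) ^ n :=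
        Finset.single_le_sum (f := fun i => (f i + 1) ^ n) (fun _ _ => Nat.zero_le _)
          (Finset.mem_range.2 hin)
      calc B.card = B₁.card + B₂.card := hsum.symm
        _ ≤ c * A.card ^ n + (f i + 1) ^ n * A.card ^ n := Nat.add_le_add h1 (h2.trans h3)
        _ ≤ c * A.card ^ n + (∑ i ∈ Finset.range n, (f i + 1) ^ n) * A.card ^ n :=
            Nat.add_le_add_left (Nat.mul_le_mul_right _ h4) _
        _ = _ := by rw [Nat.add_mul]
    · push Not at hex
      have h1 : F.vars = ∅ := by
        rw [Finset.eq_empty_iff_forall_notMem]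
        intro j hj
        by_cases hjn : j < n
        · exact notMem_vars_of_pderiv (hex j hjn) hj
        · rw [mem_supported] at hF
          exact hjn (hF hj)
      have h2 : F ∈ supported C (∅ : Set ℕ) := by
        rw [mem_supported, h1]
        simp
      rw [supported_empty, Algebra.mem_bot] at h2
      obtain ⟨a, rfl⟩ := h2
      have h3 : B = ∅ := by
        rw [Finset.eq_empty_iff_forall_notMem]
        intro b hb
        have h4 := h0 b hb
        unfold ev at h4
        rw [MvPolynomial.algebraMap_eq, eval_C] at h4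
        apply hF0
        rw [h4, map_zero]
      rw [h3]
      simp

end Jets

end Pool.Agent.Zk44.GE.Ode
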