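import Mathlib
import Pool.Agent.Zk44.GE.Cube
import Pool.Agent.Zk44.GE.OdeCount

/-!
# The numbers which satisfy a relation with few additions satisfy one differential equation
-/

set_option autoImplicit false

namespace Pool.Agent.Zk44.GE.Ode

open MvPolynomial
open Pool.Agent.R351
open Pool.Agent.Y918.SC (Ex monE)
open Pool.Agent.W245 (IndepOver)

/-- Points with independent jets are good for all exponentials. -/
theorem good_of_indep (h g L : ℕ) : ∃ K N M : ℕ, ∀ (κ C : Type) [Field κ] [IsAlgClosed κ]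
    [CharZero κ] [Field C] [CharZero C] [Algebra κ C] (Δ : Derivation κ C C) (t : Fin g → C),
    ∃ W : Submodule κ C, Module.Finite κ W ∧ Module.finrank κ W ≤ M ∧
    ∀ y : C, IndepOver W (monE (D := N) (fun c : Fin K => dit Δ c y) (fun l : Empty => l.elim)) →
      ∀ u : Fin h → C, ExpLike Δ u → Good1 κ (Fin.append u t) L y := by
  classical
  choose K₀ hK₀ using fun l : ℕ => slp_one (h + g) l
  set K : ℕ := ∑ l ∈ Finset.range L, K₀ l + 1 with hK
  have hKl : ∀ l < L, K₀ l ≤ K := fun l hl => by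
    have := Finset.single_le_sum (f := K₀) (fun _ _ => Nat.zero_le _) (Finset.mem_range.2 hl)
    omega
  choose N₀ hN₀ using fun l : ℕ => fun hl : l < L => hK₀ l K (hKl l hl)
  set N : ℕ := ∑ l : Fin L, N₀ l l.2 + 1 with hN
  have hNl : ∀ l (hl : l < L), N₀ l hl ≤ N := fun l hl => by
    have := Finset.single_le_sum (f := fun l : Fin L => N₀ l l.2) (fun _ _ => Nat.zero_le _)
      (Finset.mem_univ (⟨l, hl⟩ : Fin L))
    simp only at this
    omega
  choose K' N' hKN using fun l : ℕ => fun hl : l < L => hN₀ l hl N (hNl l hl)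
  -- one space for every length
  obtain ⟨M, hM⟩ : ∃ M : ℕ, M = ∑ l : Fin L, (N' l l.2 + 1) ^ (g * K' l l.2) + 1 := ⟨_, rfl⟩
  refine ⟨K, N, M, fun κ C _ _ _ _ _ _ Δ t => ?_⟩
  set W : Submodule κ C := ((Finset.univ : Finset (Fin L)).sup fun l =>
    Sθ κ (lt Δ (th t)) (K' l l.2) (N' l l.2)) ⊔ Submodule.span κ {1} with hW
  have hfin : ∀ l : Fin L, Module.Finite κ (Sθ κ (lt Δ (th t)) (K' l l.2) (N' l l.2)) :=
    fun l => (Sθ_finite _ _ _).1
  have hWfin : Module.Finite κ W := by infer_instance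
  have hWrank : Module.finrank κ W ≤ M := by
    have h1 : Module.finrank κ ((Finset.univ : Finset (Fin L)).sup (fun l =>
        Sθ κ (lt Δ (th t)) (K' l l.2) (N' l l.2)) : Submodule κ C) ≤
        ∑ l : Fin L, (N' l l.2 + 1) ^ (g * K' l l.2) := by
      refine (finrank_sup_le _ _ hfin).trans ?_
      exact Finset.sum_le_sum fun l _ => (Sθ_finite _ _ _).2
    have h2 : Module.finrank κ (Submodule.span κ {(1 : C)}) ≤ 1 := by
      refine (finrank_span_le_card _).trans ?_
      simp
    rw [hW, hM]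
    exact (Submodule.finrank_add_le_finrank_add_finrank _ _).trans (Nat.add_le_add h1 h2)
  refine ⟨W, hWfin, hWrank, fun y hS u hu => ?_⟩
  -- `y` is not zero
  have hy0 : y ≠ 0 := by
    intro h0
    have hN1 : 1 < N + 1 := by omega
    have hK1 : 0 < K := by omega
    let e₁ : Ex (Fin K) Empty N := Sum.elim (fun i => if (i : ℕ) = 0 then ⟨1, hN1⟩ else 0)
      (fun l => l.elim)
    have h1 := hS (fun e => if e = e₁ then 1 else 0) (by
      intro e
      split_ifs
      · exact Submodule.mem_sup_right (Submodule.mem_span_singleton_self _)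
      · exact Submodule.zero_mem _) (by
      rw [Finset.sum_eq_single e₁]
      · rw [if_pos rfl, one_mul]
        unfold monE
        have h2 : ∏ a : Fin K, dit Δ a y ^ (e₁ (Sum.inl a) : ℕ) = 0 := by
          refine Finset.prod_eq_zero (Finset.mem_univ ⟨0, hK1⟩) ?_
          simp [e₁, h0, dit_zero]
        rw [h2, zero_mul]
      · intro e _ he
        rw [if_neg he, zero_mul]
      · intro h; exact absurd (Finset.mem_univ _) h) e₁
    rw [if_pos rfl] at h1
    exact one_ne_zero h1
  intro G hG l hl hGl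
  by_contra hGl0
  -- the first bad index
  have hex : ∃ l, l < L ∧ (G l).eval y = 0 ∧ G l ≠ 0 := ⟨l, hl, hGl, hGl0⟩
  set l₀ := Nat.find hex with hl₀
  obtain ⟨h1, h2, h3⟩ := Nat.find_spec hex
  have hmin : ∀ l' < l₀, (G l').eval y = 0 → G l' = 0 := by
    intro l' hl' h4
    by_contra h5
    exact Nat.find_min hex hl' ⟨by omega, h4, h5⟩
  have hcmp : Cmp κ (bt1 (Fin.append u t)) (l₀ + 1) G := by
    obtain ⟨c, e, v, hh⟩ := hG
    exact ⟨c, e, v, fun l' hl' => hh l' (by omega)⟩
  obtain ⟨π, hπt, hπy, hπG⟩ := normalise (Fin.append u t) y hy0 l₀ G hcmp hmin h3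
  refine hKN l₀ h1 κ C Δ π (by rw [hπG]; exact h3) (by rw [hπG, hπy]; exact h2) ?_
  rw [hπt, hπy]
  intro c hc hc0 e
  refine hS c (fun e => ?_) hc0 e
  exact Submodule.mem_sup_left (Finset.le_sup (f := fun l : Fin L =>
    Sθ κ (lt Δ (th t)) (K' l l.2) (N' l l.2)) (Finset.mem_univ (⟨l₀, h1⟩ : Fin L))
      (Sθ_append_le Δ u hu t _ _ (hc e)))

section Det

variable {κ C : Type} [Field κ] [Field C] [Algebra κ C]

/-- The Wronskian of a family of differential polynomials. -/
noncomputable def WF (Δ : Derivation κ C C) (Q : ℕ) (P : Fin Q → MvPolynomial ℕ C) :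
    MvPolynomial ℕ C :=
  (Matrix.of fun i c : Fin Q => (DD Δ)^[c] (P i)).det

theorem iter_supported (Δ : Derivation κ C C) {n : ℕ} {p : MvPolynomial ℕ C}
    (h : p ∈ supported C {i : ℕ | i < n}) (c : ℕ) :
    (DD Δ)^[c] p ∈ supported C {i : ℕ | i < n + c} := by
  induction c with
  | zero => exact h
  | succ c ih =>
    rw [Function.iterate_succ_apply']
    exact DD_supported Δ ih

theorem iter_totalDegree (Δ : Derivation κ C C) (p : MvPolynomial ℕ C) (c : ℕ) :
    ((DD Δ)^[c] p).totalDegree ≤ p.totalDegree := by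
  induction c with
  | zero => exact le_rfl
  | succ c ih =>
    rw [Function.iterate_succ_apply']
    exact (DD_totalDegree Δ _).trans ih

theorem WF_supported (Δ : Derivation κ C C) {n Q : ℕ} {P : Fin Q → MvPolynomial ℕ C}
    (h : ∀ i, P i ∈ supported C {i : ℕ | i < n}) : WF Δ Q P ∈ supported C {i : ℕ | i < n + Q} := by
  unfold WF
  rw [Matrix.det_apply']
  refine Subalgebra.sum_mem _ fun σ _ => Subalgebra.mul_mem _ (Subalgebra.intCast_mem _ _) ?_
  refine Subalgebra.prod_mem _ fun i _ => ?_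
  rw [Matrix.of_apply]
  exact supported_mono' (by have := i.2; omega) (iter_supported Δ (h _) i)

theorem WF_totalDegree (Δ : Derivation κ C C) {d Q : ℕ} {P : Fin Q → MvPolynomial ℕ C}
    (h : ∀ i, (P i).totalDegree ≤ d) : (WF Δ Q P).totalDegree ≤ Q * d := by
  unfold WF
  rw [Matrix.det_apply']
  refine totalDegree_finsetSum_le fun σ _ => ?_
  refine (totalDegree_mul _ _).trans ?_
  have h0 : (((Equiv.Perm.sign σ : ℤˣ) : ℤ) : MvPolynomial ℕ C).totalDegree = 0 := by
    rw [← map_intCast (MvPolynomial.C : C →+* MvPolynomial ℕ C), totalDegree_C]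
  rw [h0, zero_add]
  refine (totalDegree_finsetProd _ _).trans ?_
  refine (Finset.sum_le_card_nsmul _ _ d fun i _ => ?_).trans ?_
  · rw [Matrix.of_apply]
    exact (iter_totalDegree Δ _ _).trans (h _)
  · simp

theorem ev_WF (Δ : Derivation κ C C) (Q : ℕ) (P : Fin Q → MvPolynomial ℕ C) (y : C) :
    ev Δ y (WF Δ Q P) = (Matrix.of fun i c : Fin Q => dit Δ c (ev Δ y (P i))).det := by
  unfold WF
  rw [RingHom.map_det]
  congr 1
  ext i c
  simp only [Matrix.of_apply, RingHom.mapMatrix_apply, Matrix.map_apply]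
  exact ev_iter Δ y c (P i)

end Det

/-- **The bad points satisfy one differential equation of bounded order and degree.** -/
theorem bad_ode (h g L : ℕ) : ∃ n d R : ℕ, ∀ (κ C : Type) [Field κ] [IsAlgClosed κ]
    [CharZero κ] [Field C] [CharZero C] [Algebra κ C] (Δ : Derivation κ C C),
    (∀ z, Δ z = 0 → ∃ a : κ, algebraMap κ C a = z) → ∀ (t : Fin g → C) (N : ℕ), R ≤ N →
    ∀ lam : Fin N → C, LinearIndependent κ lam →
    ∃ F : MvPolynomial ℕ C, F ≠ 0 ∧ F ∈ supported C {i : ℕ | i < n} ∧ F.totalDegree ≤ d ∧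
    ∀ y : C, ¬ (∀ u : Fin h → C, ExpLike Δ u → Good1 κ (Fin.append u t) L y) → ev Δ y F = 0 := by
  classical
  obtain ⟨K, N₁, M, hgood⟩ := good_of_indep h g L
  obtain ⟨R, hR⟩ := cube_jet M K N₁
  obtain ⟨E, hE⟩ : ∃ E, E = Fintype.card (Ex (Fin K) Empty N₁) := ⟨_, rfl⟩
  refine ⟨K + M * E, M * E * (K * N₁), R, fun κ C _ _ _ _ _ _ Δ hΔ t N hRN lam hlam => ?_⟩
  obtain ⟨W, hWf, hWM, hW⟩ := hgood κ C Δ t
  let bs := Module.finBasis κ W
  set q := Module.finrank κ W with hq
  let w : Fin q → C := fun r => (bs r : C)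
  have hw : LinearIndependent κ w :=
    bs.linearIndependent.map' W.subtype (Submodule.ker_subtype _)
  -- the family
  let Q := Fintype.card (Fin q × Ex (Fin K) Empty N₁)
  let e : Fin Q ≃ Fin q × Ex (Fin K) Empty N₁ := (Fintype.equivFin _).symm
  let pm : Fin q × Ex (Fin K) Empty N₁ → MvPolynomial ℕ C := fun p =>
    MvPolynomial.C (w p.1) * ∏ c : Fin K, X (c : ℕ) ^ (p.2 (Sum.inl c) : ℕ)
  have hQ : Q ≤ M * E := by
    have h1 : Q = q * E := by
      simp only [Q]
      rw [Fintype.card_prod, Fintype.card_fin, hE]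
    rw [h1]
    exact Nat.mul_le_mul_right _ hWM
  have hpm1 : ∀ p, pm p ∈ supported C {i : ℕ | i < K} := by
    intro p
    refine Subalgebra.mul_mem _ (Subalgebra.algebraMap_mem _ _) (Subalgebra.prod_mem _ fun c _ => ?_)
    have hX : (X (c : ℕ) : MvPolynomial ℕ C) ∈ supported C {i : ℕ | i < K} :=
      X_mem_supported.2 c.2
    exact Subalgebra.pow_mem _ hX _
  have hpm2 : ∀ p, (pm p).totalDegree ≤ K * N₁ := by
    intro p
    refine (totalDegree_mul _ _).trans ?_
    rw [totalDegree_C, zero_add]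
    refine (totalDegree_finsetProd _ _).trans ?_
    refine (Finset.sum_le_card_nsmul _ _ N₁ fun c _ => ?_).trans ?_
    · refine (totalDegree_pow _ _).trans ?_
      rw [totalDegree_X, mul_one]
      exact Nat.lt_succ_iff.1 (p.2 (Sum.inl c)).2
    · simp
  have hpm3 : ∀ (y : C) p, ev Δ y (pm p) = w p.1 *
      monE (D := N₁) (fun c : Fin K => dit Δ c y) (fun l : Empty => l.elim) p.2 := by
    intro y p
    unfold ev monE
    rw [map_mul, eval_C, map_prod]
    simp only [map_pow, eval_X]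
    simp
  refine ⟨WF Δ Q (fun i => pm (e i)), ?_, ?_, ?_, ?_⟩
  · -- a good point
    obtain ⟨S, hS⟩ := hR κ C Δ hΔ W hWf hWM 0 (fun i => lam (Fin.castLE hRN i))
      (hlam.comp _ (Fin.castLE_injective hRN))
    intro h0
    set y := (0 : C) + ∑ i ∈ S, lam (Fin.castLE hRN i) with hy
    have h1 : ev Δ y (WF Δ Q (fun i => pm (e i))) = 0 := by rw [h0, map_zero]
    rw [ev_WF] at h1
    refine wronskian_ne_zero Δ hΔ Q (fun i => ev Δ y (pm (e i))) ?_ h1
    have h2 : LinearIndependent κ (fun p : Fin q × Ex (Fin K) Empty N₁ => ev Δ y (pm p)) := by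
      rw [Fintype.linearIndependent_iff]
      intro c hc
      have h3 := hS (fun e => ∑ r, c (r, e) • w r)
        (fun e => Submodule.sum_mem _ fun r _ => Submodule.smul_mem _ _ (bs r).2) (by
          rw [← hc, Fintype.sum_prod_type_right]
          refine Finset.sum_congr rfl fun e _ => ?_
          rw [Finset.sum_mul]
          refine Finset.sum_congr rfl fun r _ => ?_
          rw [hpm3, smul_mul_assoc])
      rintro ⟨r, e⟩
      exact Fintype.linearIndependent_iff.1 hw (fun r => c (r, e)) (h3 e) r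
    exact h2.comp _ e.injective
  · exact supported_mono' (Nat.add_le_add_left hQ K) (WF_supported Δ (fun i => hpm1 (e i)))
  · exact (WF_totalDegree Δ (fun i => hpm2 (e i))).trans (Nat.mul_le_mul_right _ hQ)
  · intro y hy
    have h1 : ¬ IndepOver W (monE (D := N₁) (fun c : Fin K => dit Δ c y)
        (fun l : Empty => l.elim)) := fun h => hy (hW y h)
    unfold IndepOver at h1
    push Not at h1
    obtain ⟨c, hcW, hc0, e₀, he₀⟩ := h1
    rw [ev_WF]
    -- the coordinates
    let β : Fin q × Ex (Fin K) Empty N₁ → κ := fun p => bs.repr ⟨c p.2, hcW p.2⟩ p.1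
    have hβ : ∀ e, ∑ r, β (r, e) • w r = c e := by
      intro e
      have h2 := bs.sum_repr ⟨c e, hcW e⟩
      have h3 := congrArg (Submodule.subtype W) h2
      rw [map_sum] at h3
      simp only [map_smul] at h3
      exact h3
    refine wronskian_eq_zero Δ Q _ (fun i => β (e i)) ?_ ?_
    · intro h0
      apply he₀
      rw [← hβ e₀]
      refine Finset.sum_eq_zero fun r _ => ?_
      have h4 := congrFun h0 (e.symm (r, e₀))
      rw [Equiv.apply_symm_apply] at h4
      rw [h4]
      exact zero_smul _ _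
    · rw [Equiv.sum_comp e (fun p => β p • ev Δ y (pm p)), Fintype.sum_prod_type_right, ← hc0]
      refine Finset.sum_congr rfl fun e' _ => ?_
      rw [← hβ e', Finset.sum_mul]
      refine Finset.sum_congr rfl fun r _ => ?_
      rw [hpm3, smul_mul_assoc]

/-- **The number of bad points on a grid of constants.** -/
theorem count_bad (h g L : ℕ) : ∃ c : ℕ, ∀ N : ℕ, ∃ B₀ : ℕ, ∀ (κ C : Type) [Field κ]
    [IsAlgClosed κ] [CharZero κ] [Field C] [CharZero C] [Algebra κ C] (Δ : Derivation κ C C),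
    (∀ z, Δ z = 0 → ∃ a : κ, algebraMap κ C a = z) → ∀ (t : Fin g → C) (lam : Fin N → C),
    LinearIndependent κ lam → ∀ (z : C) (A : Finset κ), A.Nonempty →
    ∀ B : Finset (Fin N → κ), (∀ b ∈ B, ∀ k, b k ∈ A) →
    (∀ b ∈ B, ¬ ∀ u : Fin h → C, ExpLike Δ u → Good1 κ (Fin.append u t) L (cb lam z b)) →
    B.card ≤ B₀ * A.card ^ c := by
  obtain ⟨n, d, R, H⟩ := bad_ode h g L
  refine ⟨n + R, fun N => ?_⟩
  obtain ⟨c, hc⟩ := count_ode n N d
  refine ⟨c + 1, fun κ C _ _ _ _ _ _ Δ hΔ t lam hlam z A hA B hBA hB => ?_⟩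
  classical
  have hA1 : 1 ≤ A.card := hA.card_pos
  rcases Nat.lt_or_ge N R with hNR | hNR
  · have h1 : B ⊆ Fintype.piFinset fun _ : Fin N => A := by
      intro b hb
      exact Fintype.mem_piFinset.2 (hBA b hb)
    have h2 := Finset.card_le_card h1
    rw [Fintype.card_piFinset_const] at h2
    have h3 : A.card ^ N ≤ A.card ^ (n + R) := Nat.pow_le_pow_right hA1 (by omega)
    nlinarith [Nat.zero_le (c * A.card ^ (n + R))]
  · obtain ⟨F, hF0, hF1, hF2, hF3⟩ := H κ C Δ hΔ t N hNR lam hlam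
    have h1 := hc κ C Δ hΔ lam hlam z A hA B hBA F hF0 hF1 hF2 (fun b hb => hF3 _ (hB b hb))
    have h3 : A.card ^ n ≤ A.card ^ (n + R) := Nat.pow_le_pow_right hA1 (by omega)
    nlinarith [Nat.mul_le_mul_left c h3, Nat.zero_le (A.card ^ (n + R))]

end Pool.Agent.Zk44.GE.Ode
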