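import Mathlib
import Pool.Agent.R351.Der
import Pool.Agent.H351R3.Gel.Disj

/-!
# A derivation of the complex numbers with `D (exp γ) = γ exp γ` and algebraic constants
-/

set_option autoImplicit false

namespace Pool.Agent.Zk44.GE

open Pool.Agent.H351R3.Gel Pool.Agent.R351 Complex
open scoped Polynomial

/-- A derivation which kills `z` and multiplies the exponentials by their exponents: a relation
between the exponentials over `ℚ̄[z]` makes `z` algebraic. -/
theorem algebraic_of_rel (D : Derivation QB ℂ ℂ) (hD : ∀ γ : QB, D (cexp γ) = (γ : ℂ) * cexp γ)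
    (z : ℂ) (hz : D z = 0) (n : ℕ) : ∀ (s : Finset QB) (l : QB → QB[X]), s.card = n + 1 →
      (∀ γ ∈ s, l γ ≠ 0) → ∑ γ ∈ s, Polynomial.aeval z (l γ) * cexp (γ : ℂ) = 0 →
      IsAlgebraic QB z := by
  classical
  have hpoly : ∀ p : QB[X], D (Polynomial.aeval z p) = 0 := by
    intro p
    induction p using Polynomial.induction_on' with
    | add p q hp hq => rw [map_add, map_add, hp, hq, add_zero]
    | monomial n a =>
      rw [Polynomial.aeval_monomial, Derivation.leibniz, Derivation.leibniz_pow, hz,
        Derivation.map_algebraMap]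
      simp
  induction n with
  | zero =>
    intro s l hs hl h
    rw [zero_add, Finset.card_eq_one] at hs
    obtain ⟨γ, rfl⟩ := hs
    rw [Finset.sum_singleton] at h
    exact ⟨l γ, hl γ (Finset.mem_singleton_self γ),
      (mul_eq_zero.1 h).resolve_right (Complex.exp_ne_zero _)⟩
  | succ n ih =>
    intro s l hs hl h
    obtain ⟨γ₁, hγ₁⟩ : s.Nonempty := by
      rw [← Finset.card_pos]; omega
    have h1 : ∑ γ ∈ s, Polynomial.aeval z (l γ) * ((γ : ℂ) * cexp (γ : ℂ)) = 0 := by
      have h2 := congrArg D h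
      rw [map_sum, map_zero] at h2
      rw [← h2]
      refine Finset.sum_congr rfl fun γ _ => ?_
      rw [Derivation.leibniz, hpoly, hD, smul_zero, add_zero, smul_eq_mul]
    refine ih (s.erase γ₁) (fun γ => Polynomial.C (γ - γ₁) * l γ) ?_ ?_ ?_
    · rw [Finset.card_erase_of_mem hγ₁, hs]; rfl
    · intro γ hγ
      refine mul_ne_zero ?_ (hl γ (Finset.mem_of_mem_erase hγ))
      rw [Ne, Polynomial.C_eq_zero, sub_eq_zero]
      exact Finset.ne_of_mem_erase hγ
    · have h3 : ∑ γ ∈ s, Polynomial.aeval z (Polynomial.C (γ - γ₁) * l γ) * cexp (γ : ℂ) = 0 := by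
        have h4 : ∀ γ ∈ s, Polynomial.aeval z (Polynomial.C (γ - γ₁) * l γ) * cexp (γ : ℂ) =
            Polynomial.aeval z (l γ) * ((γ : ℂ) * cexp (γ : ℂ)) -
              (γ₁ : ℂ) * (Polynomial.aeval z (l γ) * cexp (γ : ℂ)) := by
          intro γ _
          rw [map_mul, Polynomial.aeval_C]
          have : algebraMap QB ℂ (γ - γ₁) = (γ : ℂ) - (γ₁ : ℂ) := rfl
          rw [this]
          ring
        rw [Finset.sum_congr rfl h4, Finset.sum_sub_distrib, ← Finset.mul_sum, h1, h, mul_zero,
          sub_zero]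
      rw [← Finset.add_sum_erase s _ hγ₁] at h3
      simpa using h3

theorem countable_QB : Countable QB := by
  have hac : IsAlgClosure ℚ QB := algebraicClosure.isAlgClosure ℚ ℂ
  have h2 : Algebra.IsAlgebraic ℚ QB := hac.isAlgebraic
  have h3 : Cardinal.mk QB ≤ max (Cardinal.mk ℚ) Cardinal.aleph0 :=
    Algebra.IsAlgebraic.cardinalMk_le_max ℚ QB
  rw [← Cardinal.mk_le_aleph0_iff]
  refine h3.trans (max_le ?_ le_rfl)
  exact Cardinal.mk_le_aleph0

/-- `ℂ` is not algebraic over a countable set of generators. -/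
theorem not_alg_countable (s : Set ℂ) (hs : s.Countable) :
    ¬ Algebra.IsAlgebraic (Algebra.adjoin QB s) ℂ := by
  intro halg
  have hc : (Set.univ : Set ℂ).Countable := by
    have h1 : Countable QB := countable_QB
    have h4 : Countable (Algebra.adjoin QB s) := by
      have h5 : Countable s := hs.to_subtype
      have h6 : Cardinal.mk (Algebra.adjoin QB s) ≤
          max (max (Cardinal.mk QB) (Cardinal.mk s)) Cardinal.aleph0 := by
        have h7 : Function.Surjective (MvPolynomial.aeval (R := QB) (fun x : s => (x : ℂ))).rangeRestrict :=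
          AlgHom.rangeRestrict_surjective _
        have h8 := Cardinal.mk_le_of_surjective h7
        have h9 : Algebra.adjoin QB s = (MvPolynomial.aeval (R := QB) (fun x : s => (x : ℂ))).range := by
          rw [← Algebra.adjoin_range_eq_range_aeval, Subtype.range_coe]
        rw [h9]
        exact h8.trans MvPolynomial.cardinalMk_le_max
      rw [← Cardinal.mk_le_aleph0_iff]
      refine h6.trans (max_le (max_le ?_ ?_) le_rfl)
      · exact Cardinal.mk_le_aleph0
      · exact Cardinal.mk_le_aleph0
    have h10 : Cardinal.mk ℂ ≤ max (Cardinal.mk (Algebra.adjoin QB s)) Cardinal.aleph0 :=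
      Algebra.IsAlgebraic.cardinalMk_le_max (Algebra.adjoin QB s) ℂ
    rw [Set.countable_univ_iff, ← Cardinal.mk_le_aleph0_iff]
    refine h10.trans (max_le ?_ le_rfl)
    exact Cardinal.mk_le_aleph0
  exact not_countable_complex hc

/-- **The derivation.** -/
theorem exists_der_exp : ∃ D : Derivation QB ℂ ℂ, (∀ γ : QB, D (cexp γ) = (γ : ℂ) * cexp γ) ∧
    ∀ z, D z = 0 → ∃ a : QB, algebraMap QB ℂ a = z := by
  classical
  have hac : IsAlgClosure ℚ QB := algebraicClosure.isAlgClosure ℚ ℂ
  have hacl : IsAlgClosed QB := IsAlgClosure.isAlgClosed ℚ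
  have hcQ : Countable QB := countable_QB
  -- a rational basis of the algebraic numbers
  let b := Module.Basis.ofVectorSpace ℚ QB
  set ι := Module.Basis.ofVectorSpaceIndex ℚ QB with hι
  have hbi : LinearIndependent ℚ b := b.linearIndependent
  let e : ι → ℂ := fun i => cexp (b i : ℂ)
  have he : AlgebraicIndependent QB e := by
    apply algebraicIndependent_of_finite_type
    intro t ht
    have : Fintype t := ht.fintype
    have h1 : LinearIndependent ℚ (fun i : t => ((b i : QB) : ℂ)) := by
      have h2 : LinearIndependent ℚ (fun i : t => b i) := hbi.comp _ Subtype.val_injective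
      exact h2.map' (QB.val.toLinearMap) (LinearMap.ker_eq_bot.2 Subtype.val_injective)
    exact Pool.Agent.H297R2.exp_algebraicIndependent _ (fun i => mem_QB.1 (b i).2) h1
  have heinj : Function.Injective e := he.injective
  have hE : AlgebraicIndepOn QB id (Set.range e) := (AlgebraicIndependent.coe_range he)
  obtain ⟨B, hEB, hB⟩ := exists_isTranscendenceBasis_superset hE
  -- the further elements
  let B' := {x : B // (x : ℂ) ∉ Set.range e}
  have hB'inf : Infinite B' := by
    by_contra hfin
    rw [not_infinite_iff_finite] at hfin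
    have h1 : B.Countable := by
      have h2 : B ⊆ Set.range e ∪ Set.range (fun x : B' => ((x : B) : ℂ)) := by
        intro x hx
        by_cases h3 : x ∈ Set.range e
        · exact Or.inl h3
        · exact Or.inr ⟨⟨⟨x, hx⟩, h3⟩, rfl⟩
      refine Set.Countable.mono h2 (Set.Countable.union ?_ ?_)
      · exact Set.countable_range e
      · exact Set.countable_range _
    refine not_alg_countable B h1 ?_
    have h4 := hB.isAlgebraic
    rwa [Subtype.range_coe] at h4
  obtain ⟨φ⟩ : Nonempty (B' ≃ B' × ℕ) := by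
    rw [← Cardinal.eq]
    simp
  let sh : B' → B' := fun b => φ.symm ((φ b).1, (φ b).2 + 1)
  have hsh : ∀ b, φ (sh b) = ((φ b).1, (φ b).2 + 1) := fun b => by simp [sh]
  have hshinj : Function.Injective sh := by
    intro a b hab
    have h1 := congrArg φ hab
    rw [hsh, hsh, Prod.mk.injEq] at h1
    apply φ.injective
    exact Prod.ext h1.1 (by omega)
  -- the values
  let f : B → ℂ := fun x => if h : (x : ℂ) ∈ Set.range e then ((b h.choose : QB) : ℂ) * (x : ℂ)
    else ((sh ⟨x, h⟩ : B) : ℂ)
  have hfe : ∀ i (hi : e i ∈ B), f ⟨e i, hi⟩ = ((b i : QB) : ℂ) * e i := by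
    intro i hi
    have hr : e i ∈ Set.range e := ⟨i, rfl⟩
    have h1 : hr.choose = i := heinj hr.choose_spec
    show (if h : e i ∈ Set.range e then ((b h.choose : QB) : ℂ) * (e i : ℂ)
      else ((sh ⟨⟨e i, hi⟩, h⟩ : B) : ℂ)) = _
    rw [dif_pos hr, h1]
  have hfb : ∀ x : B', f x = ((sh x : B) : ℂ) := by
    intro x
    show (if h : ((x : B) : ℂ) ∈ Set.range e then ((b h.choose : QB) : ℂ) * ((x : B) : ℂ)
      else ((sh ⟨x, h⟩ : B) : ℂ)) = _
    rw [dif_neg x.2]
  obtain ⟨D, hD⟩ := exists_der_values (fun x : B => (x : ℂ)) hB.1 f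
  choose P hP using fun x : B => exists_der_values (fun x : B => (x : ℂ)) hB.1
    (fun x' => if x' = x then (1 : ℂ) else 0)
  have hcomm : ∀ x x' : B, ∀ z, P x (P x' z) = P x' (P x z) := by
    intro x x' z
    have h1 : ⁅P x, P x'⁆ = (0 : Derivation QB ℂ ℂ) := by
      apply der_ext hB
      intro i
      rw [Derivation.commutator_apply, hP, hP, Derivation.zero_apply]
      split_ifs <;> simp
    have h2 := DFunLike.congr_fun h1 z
    rw [Derivation.commutator_apply, Derivation.zero_apply, sub_eq_zero] at h2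
    exact h2
  -- the exponentials
  have hDe : ∀ i, D (e i) = ((b i : QB) : ℂ) * e i := by
    intro i
    have h1 := hD ⟨e i, hEB ⟨i, rfl⟩⟩
    rw [hfe] at h1
    exact h1
  have hDexp : ∀ γ : QB, D (cexp γ) = (γ : ℂ) * cexp γ := by
    let ψ : QB →+ ℂ :=
      { toFun := fun γ => cexp (-(γ : ℂ)) * D (cexp γ)
        map_zero' := by
          show cexp (-((0 : QB) : ℂ)) * D (cexp ((0 : QB) : ℂ)) = 0
          simp
        map_add' := by
          intro γ δ
          show cexp (-((γ + δ : QB) : ℂ)) * D (cexp ((γ + δ : QB) : ℂ)) =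
            cexp (-(γ : ℂ)) * D (cexp γ) + cexp (-(δ : ℂ)) * D (cexp δ)
          have h1 : ((γ + δ : QB) : ℂ) = (γ : ℂ) + δ := rfl
          rw [h1, neg_add, Complex.exp_add, Complex.exp_add, Derivation.leibniz, smul_eq_mul,
            smul_eq_mul]
          have h2 : cexp (-(γ : ℂ)) * cexp γ = 1 := by rw [← Complex.exp_add]; simp
          have h3 : cexp (-(δ : ℂ)) * cexp δ = 1 := by rw [← Complex.exp_add]; simp
          linear_combination (cexp (-(δ : ℂ)) * D (cexp δ)) * h2 +
            (cexp (-(γ : ℂ)) * D (cexp γ)) * h3 }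
    have h1 : ψ.toRatLinearMap = QB.val.toLinearMap := by
      apply b.ext
      intro i
      show cexp (-((b i : QB) : ℂ)) * D (cexp ((b i : QB) : ℂ)) = ((b i : QB) : ℂ)
      have h2 : cexp (-((b i : QB) : ℂ)) * cexp ((b i : QB) : ℂ) = 1 := by
        rw [← Complex.exp_add]; simp
      have h3 : D (cexp ((b i : QB) : ℂ)) = ((b i : QB) : ℂ) * cexp ((b i : QB) : ℂ) := hDe i
      rw [h3]
      linear_combination ((b i : QB) : ℂ) * h2
    intro γ
    have h4 : cexp (-(γ : ℂ)) * D (cexp γ) = (γ : ℂ) := LinearMap.congr_fun h1 γ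
    have h5 : cexp (γ : ℂ) * cexp (-(γ : ℂ)) = 1 := by rw [← Complex.exp_add]; simp
    linear_combination cexp (γ : ℂ) * h4 - D (cexp γ) * h5
  refine ⟨D, hDexp, fun z hz => ?_⟩
  obtain ⟨S, hS⟩ := exists_finset_algebraic hB z
  have hcomb : ∀ F : Derivation QB ℂ ℂ, F z = ∑ x ∈ S, F (x : ℂ) * P x z := by
    intro F
    have h1 : (F - ∑ x ∈ S, (F (x : ℂ)) • P x) z = 0 := by
      apply der_zero_of_algebraic (fun i : S => ((i : B) : ℂ)) _ _ z hS
      rintro ⟨x, hx⟩
      rw [Derivation.sub_apply, sub_eq_zero]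
      have h2 : (∑ x' ∈ S, (F (x' : ℂ)) • P x') (x : ℂ) = ∑ x' ∈ S, F (x' : ℂ) * P x' (x : ℂ) := by
        rw [sum_der_apply]
        rfl
      rw [h2, Finset.sum_eq_single x]
      · rw [hP, if_pos rfl, mul_one]
      · intro x' _ hne
        rw [hP, if_neg (Ne.symm hne), mul_zero]
      · intro h3; exact absurd hx h3
    rw [Derivation.sub_apply, sub_eq_zero] at h1
    rw [h1, sum_der_apply]
    rfl
  have hvan : ∀ x ∉ S, P x z = 0 := by
    intro x hx
    rw [hcomb]
    apply Finset.sum_eq_zero
    intro x' hx'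
    rw [hP, if_neg (by rintro rfl; exact hx hx'), zero_mul]
  -- the values of the partial derivations at the values of `D`
  have hPf : ∀ (x : B') (y : B), P (sh x) (D (y : ℂ)) = if y = x then 1 else 0 := by
    intro x y
    rw [hD]
    by_cases hy : (y : ℂ) ∈ Set.range e
    · obtain ⟨i, hi⟩ := hy
      have h1 : y = ⟨e i, hEB ⟨i, rfl⟩⟩ := Subtype.ext hi.symm
      have h2 : y ≠ (x : B) := by
        intro h
        apply x.2
        rw [← h]
        exact ⟨i, hi⟩
      rw [if_neg h2, h1, hfe, Derivation.leibniz]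
      have h3 : P (sh x) ((b i : QB) : ℂ) = 0 := (P (sh x)).map_algebraMap (b i)
      have h4 : P (sh x) (e i) = 0 := by
        have h5 := hP (sh x : B) ⟨e i, hEB ⟨i, rfl⟩⟩
        rw [if_neg] at h5
        · exact h5
        · intro h
          exact (sh x).2 (by rw [← h]; exact ⟨i, rfl⟩)
      rw [h3, h4, smul_zero, smul_zero, add_zero]
    · have h1 : f y = ((sh ⟨y, hy⟩ : B) : ℂ) := hfb ⟨y, hy⟩
      rw [h1, hP]
      by_cases h2 : y = (x : B)
      · rw [if_pos h2, if_pos]
        congr 1
        congr 1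
        exact Subtype.ext h2
      · rw [if_neg h2, if_neg]
        intro h3
        apply h2
        have h4 := hshinj (Subtype.ext h3)
        rw [← h4]
  -- the derivations which belong to `B'` vanish
  have hall : ∀ x : B', P x z = 0 := by
    by_contra hcon
    push Not at hcon
    obtain ⟨b₀, hb₀⟩ := hcon
    have hfinB : (Set.univ : Set {x : B' // (x : B) ∈ S}).Finite := by
      have : Finite {x : B' // (x : B) ∈ S} := by
        refine Finite.of_injective (fun x : {x : B' // (x : B) ∈ S} => (⟨(x : B'), x.2⟩ : S)) ?_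
        intro x y hxy
        have := congrArg (fun z : S => (z : B)) hxy
        exact Subtype.ext (Subtype.ext this)
      exact Set.finite_univ
    have hfin : {x : B' | P x z ≠ 0}.Finite := by
      refine Set.Finite.subset (Set.Finite.image (fun x : {x : B' // (x : B) ∈ S} => (x : B')) hfinB) ?_
      intro x hx
      have hxS : (x : B) ∈ S := by
        by_contra h; exact hx (hvan _ h)
      exact ⟨⟨x, hxS⟩, Set.mem_univ _, rfl⟩
    obtain ⟨x, hx, hmax⟩ := Set.exists_max_image _ (fun x : B' => (φ x).2) hfin ⟨b₀, hb₀⟩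
    have hσ0 : P (sh x) z = 0 := by
      by_contra h0
      have := hmax (sh x) h0
      rw [hsh] at this
      simp at this
    have h1 : P (sh x) (D z) = P x z := by
      have hterm : ∀ y ∈ S, P (sh x) (D (y : ℂ) * P y z) = (if y = (x : B) then 1 else 0) * P y z := by
        intro y _
        rw [Derivation.leibniz, hcomm, hσ0, map_zero, smul_zero, zero_add, hPf, smul_eq_mul, mul_comm]
      rw [hcomb D, map_sum, Finset.sum_congr rfl hterm]
      rw [Finset.sum_eq_single (x : B)]
      · rw [if_pos rfl, one_mul]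
      · intro y _ hne
        rw [if_neg hne, zero_mul]
      · intro h
        rw [hvan _ h, mul_zero]
    rw [hz, map_zero] at h1
    exact hx h1.symm
  -- `z` is algebraic over finitely many exponentials
  let SE : Finset B := S.filter (fun x => (x : ℂ) ∈ Set.range e)
  choose pre hpre using fun x : {x : B // (x : ℂ) ∈ Set.range e} => x.2
  have hSE : ∀ x : {x : B // x ∈ SE}, ((x.1 : B) : ℂ) ∈ Set.range e := by
    intro x
    exact (Finset.mem_filter.1 x.2).2
  let T : Finset ι := SE.attach.image (fun x : {x : B // x ∈ SE} => pre ⟨x.1, hSE x⟩)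
  let α : Fin T.card → QB := fun k => b (T.equivFin.symm k : ι)
  have hαli : LinearIndependent ℚ α :=
    hbi.comp (fun k => (T.equivFin.symm k : ι))
      (Subtype.val_injective.comp T.equivFin.symm.injective)
  have hzalg : IsAlgebraic (EF α) z := by
    apply algebraic_of_der_zero
    intro F
    have h1 : (F.restrictScalars QB) z = ∑ x ∈ S, (F.restrictScalars QB) (x : ℂ) * P x z := hcomb _
    rw [Derivation.restrictScalars_apply] at h1
    rw [h1]
    apply Finset.sum_eq_zero
    intro x hxS
    by_cases hx : (x : ℂ) ∈ Set.range e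
    · have hxSE : x ∈ SE := Finset.mem_filter.2 ⟨hxS, hx⟩
      have h2 : e (pre ⟨x, hx⟩) = (x : ℂ) := hpre ⟨x, hx⟩
      have h3 : pre ⟨x, hx⟩ ∈ T := Finset.mem_image.2 ⟨⟨x, hxSE⟩, Finset.mem_attach _ _, rfl⟩
      have h4 : (x : ℂ) ∈ EF α := by
        rw [← h2]
        have h5 := exp_mem_EF α (T.equivFin ⟨_, h3⟩)
        have h6 : α (T.equivFin ⟨_, h3⟩) = b (pre ⟨x, hx⟩) := by
          show b (T.equivFin.symm (T.equivFin ⟨_, h3⟩) : ι) = _
          rw [Equiv.symm_apply_apply]
        rw [h6] at h5
        exact h5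
      have h7 : F (x : ℂ) = 0 := F.map_algebraMap (⟨(x : ℂ), h4⟩ : EF α)
      rw [Derivation.restrictScalars_apply, h7, zero_mul]
    · rw [show P x z = 0 from hall ⟨x, hx⟩, mul_zero]
  -- the relation
  obtain ⟨Q, hQ0, hQ⟩ := exists_rel α hzalg
  have hginj := gam_injective α hαli
  have halg : IsAlgebraic QB z := by
    obtain ⟨n, hn⟩ : ∃ n, Q.support.card = n + 1 := by
      have : 0 < Q.support.card := by
        rw [Finset.card_pos]
        exact MvPolynomial.support_nonempty.2 hQ0
      exact ⟨Q.support.card - 1, by omega⟩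
    let inv : QB → (Fin T.card →₀ ℕ) := fun γ =>
      if h : ∃ s ∈ Q.support, gam α s = γ then h.choose else 0
    have hinv : ∀ s ∈ Q.support, inv (gam α s) = s := by
      intro s hs
      have h : ∃ s' ∈ Q.support, gam α s' = gam α s := ⟨s, hs, rfl⟩
      show (if h : ∃ s' ∈ Q.support, gam α s' = gam α s then h.choose else 0) = s
      rw [dif_pos h]
      exact hginj h.choose_spec.2
    refine algebraic_of_rel D hDexp z hz n (Q.support.image (gam α)) (fun γ => Q.coeff (inv γ)) ?_ ?_ ?_
    · rw [Finset.card_image_of_injective _ hginj, hn]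
    · intro γ hγ
      obtain ⟨s, hs, rfl⟩ := Finset.mem_image.1 hγ
      show Q.coeff (inv (gam α s)) ≠ 0
      rw [hinv s hs]
      exact MvPolynomial.mem_support_iff.1 hs
    · rw [Finset.sum_image (fun s _ t _ h => hginj h), ← hQ]
      refine Finset.sum_congr rfl fun s hs => ?_
      show Polynomial.aeval z (Q.coeff (inv (gam α s))) * _ = _
      rw [hinv s hs]
  -- `ℚ̄` is algebraically closed
  obtain ⟨p, hp0, hp⟩ := halg
  have hs : (p.map (algebraMap QB ℂ)).roots = p.roots.map (algebraMap QB ℂ) :=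
    (IsAlgClosed.splits p).roots_map _
  have h1 : z ∈ (p.map (algebraMap QB ℂ)).roots := by
    rw [Polynomial.mem_roots (by rwa [Ne, Polynomial.map_eq_zero]), Polynomial.IsRoot,
      Polynomial.eval_map, ← Polynomial.aeval_def, hp]
  rw [hs, Multiset.mem_map] at h1
  obtain ⟨a, _, ha⟩ := h1
  exact ⟨a, ha⟩

end Pool.Agent.Zk44.GE
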