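import Mathlib
import Pool.Agent.R351.SlpRate
import Pool.Agent.Zk44.GE.Der
import Pool.Agent.Zk44.GE.Cube

/-!
# Density: computations with few additions over all exponentials of algebraic numbers
-/

set_option autoImplicit false

namespace Pool.Agent.Zk44.GE

open Module Finset Pool.Agent.R351 Complex
open Pool.Agent.H301R2.SSE (QB)
open Pool.Agent.W245.PB (LogLike count_cons logLike_complex)
open Pool.Agent.TH681.QC (er er_pos er_half er_nonneg cubes_er HasCube)

/-- the exponentials and the further parameters -/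
noncomputable def ap {h g : ℕ} (γ : Fin h → QB) (t : Fin g → ℂ) : Fin (h + g) → ℂ :=
  Fin.append (fun o => cexp (γ o : ℂ)) t

/-- The one-variable theorem with its rate. -/
theorem rate1 (h g L : ℕ) : ∃ c : ℕ, ∀ x ≥ 16, ∀ (t : Fin g → ℂ) (A : Finset ℕ), A ⊆ Ioc 0 x →
    (∀ a ∈ A, ¬ ∀ γ : Fin h → QB, Good1 QB (ap γ t) L (Real.log a : ℂ)) →
      (A.card : ℝ) ≤ er c x * x := by
  classical
  have hac : IsAlgClosure ℚ QB := algebraicClosure.isAlgClosure ℚ ℂ
  have hacl : IsAlgClosed QB := IsAlgClosure.isAlgClosed ℚ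
  obtain ⟨Δ, hΔe, hΔ⟩ := exists_der_exp
  obtain ⟨r, hr⟩ := cube_goodU h g L
  obtain ⟨c, hc⟩ := cubes_er r 0
  refine ⟨c, fun x hx t A hA hbad => ?_⟩
  by_contra hcon
  push Not at hcon
  obtain ⟨a, p, q, ha, hp, hq, hinj, hcube⟩ := hc x hx A hA hcon
  obtain ⟨S, hS⟩ := hr QB ℂ Δ hΔ t (Real.log (a * ∏ i, p i : ℕ) : ℂ)
    (fun i => (Real.log (q i) : ℂ) - (Real.log (p i) : ℂ))
    (logLike_complex.indep r p q (fun i => (hp i).1) (fun i => (hq i).1) hinj)
  apply hbad _ (hcube S)
  intro γ
  have h1 := logLike_complex.cube a p q ha (fun i => (hp i).1.pos) (fun i => (hq i).1.pos) S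
  rw [h1]
  exact hS _ (fun o => ⟨Complex.exp_ne_zero _, γ o, hΔe (γ o)⟩)

/-- Reindexing the parameters. -/
theorem GoodT.reindex {κ C : Type} [Field κ] [Field C] [Algebra κ C] {g g' m L : ℕ} {T : Fin g → C}
    {T' : Fin g' → C} {y : Fin m → C} (ρ : Fin g → Fin g') (hρ : ∀ o, T o = T' (ρ o))
    (h : GoodT κ T' L y) : GoodT κ T L y := by
  classical
  intro G hG
  apply h G
  refine hG.subst _ (fun _ => 1) (fun j j' => if j' = Sum.map ρ id j then 1 else 0) ?_
  intro j
  rw [one_smul]
  simp only [pow_ite, pow_one, pow_zero, Finset.prod_ite_eq', Finset.mem_univ, if_true]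
  rcases j with o | i
  · unfold btm
    simp [hρ]
  · unfold btm
    simp

/-- **The theorem for tuples.** -/
theorem rate (h L m : ℕ) : ∀ g : ℕ, ∃ c : ℕ, ∀ x : ℕ, x ≥ 16 → ∀ t : Fin g → ℂ,
    ∀ B : Finset (Fin m → ℕ), B ⊆ (Fintype.piFinset fun _ : Fin m => Ioc 0 x) →
      (∀ n ∈ B, ¬ ∀ γ : Fin h → QB, GoodT QB (ap γ t) L (fun i => (Real.log (n i) : ℂ))) →
      (B.card : ℝ) ≤ er c x * x ^ m := by
  have hinf : Infinite QB := by
    have hac : IsAlgClosure ℚ QB := algebraicClosure.isAlgClosure ℚ ℂ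
    have hacl : IsAlgClosed QB := IsAlgClosure.isAlgClosed ℚ
    exact IsAlgClosed.instInfinite
  induction m with
  | zero =>
    intro g
    refine ⟨0, fun x hx t B hB hbad => ?_⟩
    have hB0 : B = ∅ := by
      rw [Finset.eq_empty_iff_forall_notMem]
      intro a ha
      exact hbad a ha (fun γ => goodT_zero _ _)
    rw [hB0]
    simp [er_nonneg 0 hx]
  | succ m ih =>
    intro g
    obtain ⟨c₁, hc₁⟩ := rate1 h g L
    obtain ⟨c₂, hc₂⟩ := ih (g + 1)
    classical
    refine ⟨2 * (c₁ + c₂ + 1), fun x hx t B hB hbad => ?_⟩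
    refine count_cons m x _ (er_pos _ (by omega) hx)
      (fun n => ¬ ∀ γ : Fin h → QB, GoodT QB (ap γ t) L (fun i => (Real.log (n i) : ℂ)))
      ((Ioc 0 x).filter (fun a : ℕ => ¬ ∀ γ : Fin h → QB, Good1 QB (ap γ t) L (Real.log a : ℂ)))
      (Finset.filter_subset _ _) ?_ ?_ B hB hbad
    · refine (hc₁ x hx t _ (Finset.filter_subset _ _)
        (fun a ha => (Finset.mem_filter.1 ha).2)).trans ?_
      have := er_half (c := c₁) (d := c₁ + c₂ + 1) (by omega) hx
      gcongr
    · intro a ha haA B' hB' hbad'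
      have h₀ : ∀ γ : Fin h → QB, Good1 QB (ap γ t) L (Real.log a : ℂ) := by
        by_contra hcon
        exact haA (Finset.mem_filter.2 ⟨ha, hcon⟩)
      have h1 := hc₂ x hx (Fin.cons (Real.log a : ℂ) t : Fin (g + 1) → ℂ) B' hB' (by
        intro n hn hgood
        apply hbad' n hn
        intro γ
        have h4 : GoodT QB (Fin.cons (Real.log a : ℂ) (ap γ t) : Fin (h + g + 1) → ℂ) L
            (fun i => (Real.log (n i) : ℂ)) := by
          refine GoodT.reindex (T' := ap γ (Fin.cons (Real.log a : ℂ) t : Fin (g + 1) → ℂ))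
            (Fin.cons (Fin.natAdd h 0) (fun o => Fin.addCases (fun o => Fin.castAdd (g + 1) o)
              (fun o => Fin.natAdd h o.succ) o)) ?_ (hgood γ)
          intro o
          refine Fin.cases ?_ (fun o => ?_) o
          · simp only [Fin.cons_zero]
            unfold ap
            rw [Fin.append_right, Fin.cons_zero]
          · simp only [Fin.cons_succ]
            unfold ap
            refine Fin.addCases (fun o => ?_) (fun o => ?_) o
            · rw [Fin.addCases_left, Fin.append_left, Fin.append_left]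
            · rw [Fin.addCases_right, Fin.append_right, Fin.append_right, Fin.cons_succ]
        have h2 := goodT_cons (h₀ γ) h4
        have h3 : (fun i => (Real.log ((Fin.cons a n : Fin (m + 1) → ℕ) i) : ℂ)) =
            (Fin.cons (Real.log a : ℂ) (fun i => (Real.log (n i) : ℂ)) : Fin (m + 1) → ℂ) := by
          funext i
          refine Fin.cases ?_ (fun j => ?_) i
          · simp
          · simp
        rw [h3]
        exact h2)
      refine h1.trans ?_
      have := er_half (c := c₂) (d := c₁ + c₂ + 1) (by omega) hx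
      gcongr

end Pool.Agent.Zk44.GE
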