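import Mathlib
import Pool.Agent.Zk44.GE.Rate

/-!
# Computations with few additions over all exponentials of algebraic numbers, at logarithms of almost
all tuples of integers
-/

set_option autoImplicit false

namespace Pool.Agent.Zk44.GE

open Pool.Agent.R351

/-- The polynomials `G 0, …, G (L - 1)` are computed with one addition each: `G l` is the sum of two
products of powers of the variables, of the numbers `t o`, of the earlier polynomials
`G 0, …, G (l - 1)`, of an algebraic number and of the exponential of an algebraic number. -/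
def Computed {g m : ℕ} (t : Fin g → ℂ) (L : ℕ) (G : ℕ → MvPolynomial (Fin m) ℂ) : Prop :=
  ∃ (c γ : ℕ → Bool → algebraicClosure ℚ ℂ) (u : ℕ → Bool → Fin g → ℕ) (a : ℕ → Bool → Fin m → ℕ)
    (h : ℕ → Bool → ℕ → ℕ), ∀ l < L, G l = ∑ b : Bool,
      MvPolynomial.C ((c l b : ℂ) * Complex.exp (γ l b) * ∏ o, t o ^ u l b o) *
        (∏ i, MvPolynomial.X i ^ a l b i) * ∏ l' ∈ Finset.range l, G l' ^ h l b l'

/-- the exponents of the exponentials, as a family with `2 L` members -/
noncomputable def expFam (L : ℕ) (γ : ℕ → Bool → algebraicClosure ℚ ℂ) :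
    Fin (2 * L) → algebraicClosure ℚ ℂ :=
  fun o => γ ((o : ℕ) / 2) (decide ((o : ℕ) % 2 = 1))

theorem Computed.cmp {g m : ℕ} {t : Fin g → ℂ} {L : ℕ} {G : ℕ → MvPolynomial (Fin m) ℂ}
    (h : Computed t L G) :
    ∃ γ : Fin (2 * L) → algebraicClosure ℚ ℂ, Cmp (algebraicClosure ℚ ℂ) (btm m (ap γ t)) L G := by
  classical
  obtain ⟨c, γ, u, a, e, h⟩ := h
  refine ⟨expFam L γ, c, fun l b j => Sum.elim (fun o => Fin.addCases
    (fun o' : Fin (2 * L) => if (o' : ℕ) = 2 * l + (if b then 1 else 0) then 1 else 0)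
    (fun o' : Fin g => u l b o') o) (a l b) j, e, fun l hl => ?_⟩
  rw [h l hl]
  refine Finset.sum_congr rfl fun b _ => ?_
  rw [Fintype.prod_sum_type, Algebra.smul_def, IsScalarTower.algebraMap_apply
    (algebraicClosure ℚ ℂ) ℂ (MvPolynomial (Fin m) ℂ)]
  unfold btm ap
  simp only [Sum.elim_inl, Sum.elim_inr]
  rw [Fin.prod_univ_add]
  simp only [Fin.append_left, Fin.append_right, Fin.addCases_left, Fin.addCases_right]
  have h2 : ∏ o : Fin (2 * L), MvPolynomial.C (σ := Fin m) (Complex.exp (expFam L γ o : ℂ)) ^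
      (if (o : ℕ) = 2 * l + (if b then 1 else 0) then 1 else 0) =
      MvPolynomial.C (Complex.exp (γ l b : ℂ)) := by
    have hlt : 2 * l + (if b then 1 else 0) < 2 * L := by
      split_ifs <;> omega
    rw [Finset.prod_eq_single (⟨2 * l + (if b then 1 else 0), hlt⟩ : Fin (2 * L))]
    · rw [if_pos rfl, pow_one]
      have h3 : expFam L γ ⟨2 * l + (if b then 1 else 0), hlt⟩ = γ l b := by
        show γ ((2 * l + (if b then 1 else 0)) / 2)
          (decide ((2 * l + (if b then 1 else 0)) % 2 = 1)) = γ l b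
        have e1 : (2 * l + (if b then 1 else 0)) / 2 = l := by
          split_ifs <;> omega
        have e2 : decide ((2 * l + (if b then 1 else 0)) % 2 = 1) = b := by
          cases b
          · apply decide_eq_false
            simp
          · apply decide_eq_true
            simp only [if_true]
            omega
        rw [e1, e2]
      rw [h3]
    · intro o _ ho
      rw [if_neg (fun h => ho (Fin.ext h)), pow_zero]
    · intro h; exact absurd (Finset.mem_univ _) h
  rw [h2]
  have h1 : algebraMap (algebraicClosure ℚ ℂ) ℂ (c l b) = (c l b : ℂ) := rfl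
  rw [h1, MvPolynomial.algebraMap_eq]
  simp only [map_mul, map_prod, map_pow]
  ring

/-- Substitution of algebraically independent numbers for some of the variables. -/
theorem subst_ne_zero {s m : ℕ} (e : Fin s → ℂ)
    (he : AlgebraicIndependent (algebraicClosure ℚ ℂ) e)
    (P : MvPolynomial (Fin s ⊕ Fin m) (algebraicClosure ℚ ℂ)) (hP : P ≠ 0) :
    MvPolynomial.aeval (Sum.elim (fun i => MvPolynomial.C (e i)) MvPolynomial.X :
      Fin s ⊕ Fin m → MvPolynomial (Fin m) ℂ) P ≠ 0 := by
  let K := algebraicClosure ℚ ℂ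
  let φ : MvPolynomial (Fin s ⊕ Fin m) K →ₐ[K] MvPolynomial (Fin m) (MvPolynomial (Fin s) K) :=
    (MvPolynomial.sumAlgEquiv K (Fin m) (Fin s)).toAlgHom.comp
      (MvPolynomial.rename Sum.swap)
  let ψ : MvPolynomial (Fin m) (MvPolynomial (Fin s) K) →ₐ[K] MvPolynomial (Fin m) ℂ :=
    MvPolynomial.mapAlgHom (MvPolynomial.aeval e)
  have h1 : (MvPolynomial.aeval (Sum.elim (fun i => MvPolynomial.C (e i)) MvPolynomial.X :
      Fin s ⊕ Fin m → MvPolynomial (Fin m) ℂ) : _ →ₐ[K] _) = ψ.comp φ := by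
    apply MvPolynomial.algHom_ext
    rintro (i | i)
    · rw [MvPolynomial.aeval_X, AlgHom.comp_apply, AlgHom.comp_apply, MvPolynomial.rename_X]
      have e1 : (MvPolynomial.sumAlgEquiv K (Fin m) (Fin s)).toAlgHom
          (MvPolynomial.X (Sum.swap (Sum.inl i))) = MvPolynomial.C (MvPolynomial.X i) :=
        MvPolynomial.sumAlgEquiv_X_inr _ _ _ i
      rw [e1]
      simp [ψ]
    · rw [MvPolynomial.aeval_X, AlgHom.comp_apply, AlgHom.comp_apply, MvPolynomial.rename_X]
      have e1 : (MvPolynomial.sumAlgEquiv K (Fin m) (Fin s)).toAlgHom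
          (MvPolynomial.X (Sum.swap (Sum.inr i))) = MvPolynomial.X i :=
        MvPolynomial.sumAlgEquiv_X_inl _ _ _ i
      rw [e1]
      simp [ψ]
  have hψ : Function.Injective ψ := MvPolynomial.map_injective _ he
  have hφ : Function.Injective φ := by
    refine (MvPolynomial.sumAlgEquiv K (Fin m) (Fin s)).injective.comp ?_
    exact MvPolynomial.rename_injective _ Sum.swap_leftInverse.injective
  intro h0
  apply hP
  apply hφ
  apply hψ
  rw [map_zero, map_zero]
  have h2 := DFunLike.congr_fun h1 P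
  rw [h0] at h2
  exact h2.symm

/-- **The theorem relative to fixed numbers `t`.** -/
theorem main (g m L : ℕ) : ∃ c : ℕ, ∀ x : ℕ, 16 ≤ x → ∀ t : Fin g → ℂ,
    ∃ E : Finset (Fin m → ℕ),
      (E.card : ℝ) ≤ c * Real.log (Real.log x) ^ c / Real.log x * x ^ m ∧
      ∀ n : Fin m → ℕ, (∀ i, 0 < n i ∧ n i ≤ x) → n ∉ E →
      ∀ l : Fin m → ℂ, (∀ i, Complex.exp (l i) = n i) →
      ∀ G : ℕ → MvPolynomial (Fin m) ℂ, Computed t L G →
        ∀ j < L, G j ≠ 0 → MvPolynomial.eval l (G j) ≠ 0 := by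
  classical
  obtain ⟨c, hc⟩ := rate (2 * L) (m + L) m (g + 1)
  refine ⟨c, fun x hx t => ?_⟩
  have hx' : x ≥ 16 := hx
  set T : ℂ := 2 * Real.pi * Complex.I with hT
  refine ⟨(Fintype.piFinset fun _ : Fin m => Finset.Ioc 0 x).filter (fun n =>
    ¬ ∀ γ : Fin (2 * L) → algebraicClosure ℚ ℂ,
      GoodT (algebraicClosure ℚ ℂ) (ap γ (Fin.cons T t : Fin (g + 1) → ℂ)) (m + L)
      (fun i => (Real.log (n i) : ℂ))),
    hc x hx' _ _ (Finset.filter_subset _ _) (fun n hn => (Finset.mem_filter.1 hn).2), ?_⟩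
  intro n hn hnE l hl
  have hg : ∀ γ : Fin (2 * L) → algebraicClosure ℚ ℂ,
      GoodT (algebraicClosure ℚ ℂ) (ap γ (Fin.cons T t : Fin (g + 1) → ℂ)) (m + L)
      (fun i => (Real.log (n i) : ℂ)) := by
    by_contra hcon
    apply hnE
    rw [Finset.mem_filter, Fintype.mem_piFinset]
    exact ⟨fun i => Finset.mem_Ioc.2 (hn i), hcon⟩
  -- the branches
  have hb : ∀ i, ∃ b : ℤ, l i = (Real.log (n i) : ℂ) + (b : ℂ) * T := by
    intro i
    have h3 : Complex.exp (l i) = Complex.exp (Real.log (n i) : ℂ) := by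
      rw [hl i, ← Complex.ofReal_exp, Real.exp_log (by exact_mod_cast (hn i).1)]
      push_cast
      rfl
    exact Complex.exp_eq_exp_iff_exists_int.1 h3
  choose b hb using hb
  intro G hG j hj hG0 h0
  obtain ⟨γ, hγ⟩ := hG.cmp
  have h4 : GoodT (algebraicClosure ℚ ℂ) (Fin.cons T (ap γ t) : Fin (2 * L + g + 1) → ℂ) (m + L)
      (fun i => (Real.log (n i) : ℂ)) := by
    refine GoodT.reindex (T' := ap γ (Fin.cons T t : Fin (g + 1) → ℂ))
      (Fin.cons (Fin.natAdd (2 * L) 0) (fun o => Fin.addCases (fun o => Fin.castAdd (g + 1) o)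
        (fun o => Fin.natAdd (2 * L) o.succ) o)) ?_ (hg γ)
    intro o
    refine Fin.cases ?_ (fun o => ?_) o
    · simp only [Fin.cons_zero]
      unfold ap
      rw [Fin.append_right, Fin.cons_zero]
    · simp only [Fin.cons_succ]
      unfold ap
      refine Fin.addCases (fun o => ?_) (fun o => ?_) o
      · rw [Fin.addCases_left, Fin.append_left, Fin.append_left]
      · rw [Fin.addCases_right, Fin.append_right, Fin.append_right, Fin.cons_succ]
  have h1 := h4.shift T (fun i => ((b i : ℤ) : algebraicClosure ℚ ℂ))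
  have h2 : (fun i => (Real.log (n i) : ℂ) +
      algebraMap (algebraicClosure ℚ ℂ) ℂ ((b i : ℤ) : algebraicClosure ℚ ℂ) * T) = l := by
    funext i
    rw [map_intCast, hb i]
  rw [h2] at h1
  exact hG0 (h1 G hγ j hj h0)

end Pool.Agent.Zk44.GE
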